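import Pool.Agent.H314.FlowDefs

set_option autoImplicit false

open Set Filter Topology Metric
open scoped ContDiff ComplexOrder

namespace Pool.Agent.H314.Flow

/-! ### Calculus of complex Hessians -/

theorem hess_congr {n : ℕ} {f g : Cn n → ℝ} {z : Cn n} (h : f =ᶠ[𝓝 z] g) (v w : Cn n) :
    hess f z v w = hess g z v w := by
  unfold hess
  have h1 : fderiv ℝ f =ᶠ[𝓝 z] fderiv ℝ g := h.fderiv
  rw [h1.fderiv_eq]

theorem complexHessian_congr {n : ℕ} {f g : Cn n → ℝ} {z : Cn n} (h : f =ᶠ[𝓝 z] g) :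
    complexHessian f z = complexHessian g z := by
  unfold complexHessian
  ext j l
  simp only [Matrix.of_apply]
  rw [hess_congr h, hess_congr h, hess_congr h, hess_congr h]

theorem fderiv_diff {n : ℕ} {f : Cn n → ℝ} {z : Cn n} (hf : ContDiffAt ℝ 2 f z) :
    DifferentiableAt ℝ (fderiv ℝ f) z := by
  have : ContDiffAt ℝ 1 (fderiv ℝ f) z := hf.fderiv_right (by norm_num)
  exact this.differentiableAt (by norm_num)

theorem hess_add {n : ℕ} {f g : Cn n → ℝ} {z : Cn n} (hf : ContDiffAt ℝ 2 f z)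
    (hg : ContDiffAt ℝ 2 g z) (v w : Cn n) :
    hess (fun y => f y + g y) z v w = hess f z v w + hess g z v w := by
  unfold hess
  have h1 : fderiv ℝ (fun y => f y + g y) =ᶠ[𝓝 z] fun y => fderiv ℝ f y + fderiv ℝ g y := by
    filter_upwards [hf.eventually (by simp), hg.eventually (by simp)] with y hfy hgy
    exact fderiv_fun_add (hfy.differentiableAt (by norm_num)) (hgy.differentiableAt (by norm_num))
  rw [h1.fderiv_eq, fderiv_fun_add (fderiv_diff hf) (fderiv_diff hg)]
  rfl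

theorem hess_sub {n : ℕ} {f g : Cn n → ℝ} {z : Cn n} (hf : ContDiffAt ℝ 2 f z)
    (hg : ContDiffAt ℝ 2 g z) (v w : Cn n) :
    hess (fun y => f y - g y) z v w = hess f z v w - hess g z v w := by
  unfold hess
  have h1 : fderiv ℝ (fun y => f y - g y) =ᶠ[𝓝 z] fun y => fderiv ℝ f y - fderiv ℝ g y := by
    filter_upwards [hf.eventually (by simp), hg.eventually (by simp)] with y hfy hgy
    exact fderiv_fun_sub (hfy.differentiableAt (by norm_num)) (hgy.differentiableAt (by norm_num))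
  rw [h1.fderiv_eq, fderiv_fun_sub (fderiv_diff hf) (fderiv_diff hg)]
  rfl

theorem complexHessian_add {n : ℕ} {f g : Cn n → ℝ} {z : Cn n} (hf : ContDiffAt ℝ 2 f z)
    (hg : ContDiffAt ℝ 2 g z) :
    complexHessian (fun y => f y + g y) z = complexHessian f z + complexHessian g z := by
  unfold complexHessian
  ext j l
  simp only [Matrix.of_apply, Matrix.add_apply]
  rw [hess_add hf hg, hess_add hf hg, hess_add hf hg, hess_add hf hg]
  push_cast
  ring

theorem complexHessian_sub {n : ℕ} {f g : Cn n → ℝ} {z : Cn n} (hf : ContDiffAt ℝ 2 f z)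
    (hg : ContDiffAt ℝ 2 g z) :
    complexHessian (fun y => f y - g y) z = complexHessian f z - complexHessian g z := by
  unfold complexHessian
  ext j l
  simp only [Matrix.of_apply, Matrix.sub_apply]
  rw [hess_sub hf hg, hess_sub hf hg, hess_sub hf hg, hess_sub hf hg]
  push_cast
  ring

theorem hess_symm {n : ℕ} {f : Cn n → ℝ} {z : Cn n} (hf : ContDiffAt ℝ 2 f z) (v w : Cn n) :
    hess f z v w = hess f z w v := by
  have h := hf.isSymmSndFDerivAt (by simp)
  exact h v w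

theorem complexHessian_isHermitian {n : ℕ} {f : Cn n → ℝ} {z : Cn n} (hf : ContDiffAt ℝ 2 f z) :
    (complexHessian f z).IsHermitian := by
  apply Matrix.IsHermitian.ext
  intro j l
  unfold complexHessian
  simp only [Matrix.of_apply]
  rw [hess_symm hf (eR l) (eR j), hess_symm hf (eI l) (eI j), hess_symm hf (eR l) (eI j),
    hess_symm hf (eI l) (eR j)]
  simp only [star_mul', star_add, RCLike.star_def, Complex.conj_ofReal, Complex.conj_I]
  simp only [one_div, map_inv₀, Complex.conj_ofNat]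
  push_cast
  ring

/-! ### Functions of the squared moduli of the coordinates -/

/-- real pairing of the j-th coordinates -/
noncomputable def rlL {n : ℕ} (j : Fin n) : Cn n →L[ℝ] (Cn n →L[ℝ] ℝ) :=
  (Complex.reCLM.comp (ContinuousLinearMap.proj (R := ℝ) (φ := fun _ : Fin n => ℂ) j)).smulRight
    (Complex.reCLM.comp (ContinuousLinearMap.proj (R := ℝ) (φ := fun _ : Fin n => ℂ) j)) +
  (Complex.imCLM.comp (ContinuousLinearMap.proj (R := ℝ) (φ := fun _ : Fin n => ℂ) j)).smulRight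
    (Complex.imCLM.comp (ContinuousLinearMap.proj (R := ℝ) (φ := fun _ : Fin n => ℂ) j))

theorem rlL_apply {n : ℕ} (j : Fin n) (z w : Cn n) :
    rlL j z w = (z j).re * (w j).re + (z j).im * (w j).im := by
  simp [rlL]

theorem normsq_hasFDerivAt {n : ℕ} (j : Fin n) (z : Cn n) :
    HasFDerivAt (fun z : Cn n => ‖z j‖ ^ 2) ((2 : ℝ) • rlL j z) z := by
  have h0 : (fun z : Cn n => ‖z j‖ ^ 2) = fun z => (z j).re ^ 2 + (z j).im ^ 2 := by
    funext z
    rw [← Complex.normSq_eq_norm_sq, Complex.normSq_apply]; ring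
  rw [h0]
  have hre : HasFDerivAt (fun z : Cn n => (z j).re)
      (Complex.reCLM.comp (ContinuousLinearMap.proj (R := ℝ) (φ := fun _ : Fin n => ℂ) j)) z :=
    (Complex.reCLM.comp (ContinuousLinearMap.proj (R := ℝ) (φ := fun _ : Fin n => ℂ) j)).hasFDerivAt
  have him : HasFDerivAt (fun z : Cn n => (z j).im)
      (Complex.imCLM.comp (ContinuousLinearMap.proj (R := ℝ) (φ := fun _ : Fin n => ℂ) j)) z :=
    (Complex.imCLM.comp (ContinuousLinearMap.proj (R := ℝ) (φ := fun _ : Fin n => ℂ) j)).hasFDerivAt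
  have h2 := (hre.pow 2).add (him.pow 2)
  refine h2.congr_fderiv ?_
  ext v
  simp [rlL]
  ring

/-- the pair of squared moduli -/
noncomputable def sq2 (z : Cn 2) : ℝ × ℝ := (‖z 0‖ ^ 2, ‖z 1‖ ^ 2)

theorem sq2_hasFDerivAt (z : Cn 2) :
    HasFDerivAt sq2 (((2 : ℝ) • rlL 0 z).prod ((2 : ℝ) • rlL 1 z)) z :=
  (normsq_hasFDerivAt 0 z).prodMk (normsq_hasFDerivAt 1 z)

theorem sq2_continuous : Continuous sq2 := by unfold sq2; fun_prop

/-- the covector (a, b) on ℝ × ℝ -/
noncomputable def cov (a b : ℝ) : ℝ × ℝ →L[ℝ] ℝ :=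
  a • ContinuousLinearMap.fst ℝ ℝ ℝ + b • ContinuousLinearMap.snd ℝ ℝ ℝ

theorem cov_apply (a b : ℝ) (p : ℝ × ℝ) : cov a b p = a * p.1 + b * p.2 := by
  simp [cov]

theorem fderiv_G {G : ℝ × ℝ → ℝ} {ga gb : ℝ} {z : Cn 2} (h : HasFDerivAt G (cov ga gb) (sq2 z)) :
    HasFDerivAt (fun z => G (sq2 z)) ((2 * ga) • rlL 0 z + (2 * gb) • rlL 1 z) z := by
  have h1 := h.comp z (sq2_hasFDerivAt z)
  refine h1.congr_fderiv ?_
  ext v
  simp [cov_apply]
  ring

theorem hess_G {G Ga Gb : ℝ × ℝ → ℝ} {gaa gab gba gbb : ℝ} {z : Cn 2}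
    (h : ∀ᶠ p in 𝓝 (sq2 z), HasFDerivAt G (cov (Ga p) (Gb p)) p)
    (ha : HasFDerivAt Ga (cov gaa gab) (sq2 z)) (hb : HasFDerivAt Gb (cov gba gbb) (sq2 z))
    (v w : Cn 2) :
    hess (fun z => G (sq2 z)) z v w =
      2 * (Ga (sq2 z) * rlL 0 v w + Gb (sq2 z) * rlL 1 v w) +
      4 * (gaa * rlL 0 z v * rlL 0 z w + gab * rlL 1 z v * rlL 0 z w +
        gba * rlL 0 z v * rlL 1 z w + gbb * rlL 1 z v * rlL 1 z w) := by
  have h1 : fderiv ℝ (fun z => G (sq2 z)) =ᶠ[𝓝 z] fun y =>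
      (2 * Ga (sq2 y)) • rlL 0 y + (2 * Gb (sq2 y)) • rlL 1 y := by
    have := (sq2_continuous.tendsto z).eventually h
    filter_upwards [this] with y hy
    exact (fderiv_G hy).fderiv
  have h2 : HasFDerivAt (fun y => (2 * Ga (sq2 y)) • rlL 0 y + (2 * Gb (sq2 y)) • rlL 1 y)
      (((2 * Ga (sq2 z)) • rlL 0 +
          ((2 : ℝ) • ((2 * gaa) • rlL 0 z + (2 * gab) • rlL 1 z)).smulRight (rlL 0 z)) +
        ((2 * Gb (sq2 z)) • rlL 1 +
          ((2 : ℝ) • ((2 * gba) • rlL 0 z + (2 * gbb) • rlL 1 z)).smulRight (rlL 1 z))) z := by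
    have h3 := ((fderiv_G ha).const_mul 2).smul ((rlL (n := 2) 0).hasFDerivAt (x := z))
    have h4 := ((fderiv_G hb).const_mul 2).smul ((rlL (n := 2) 1).hasFDerivAt (x := z))
    exact h3.add h4
  unfold hess
  rw [h1.fderiv_eq, h2.fderiv]
  simp
  ring

/-- Entries of the complex Hessian of a function of the squared moduli. -/
theorem complexHessian_G {G Ga Gb : ℝ × ℝ → ℝ} {gaa gab gbb : ℝ} {z : Cn 2}
    (h : ∀ᶠ p in 𝓝 (sq2 z), HasFDerivAt G (cov (Ga p) (Gb p)) p)
    (ha : HasFDerivAt Ga (cov gaa gab) (sq2 z)) (hb : HasFDerivAt Gb (cov gab gbb) (sq2 z)) :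
    complexHessian (fun z => G (sq2 z)) z =
      !![((Ga (sq2 z) + ‖z 0‖ ^ 2 * gaa : ℝ) : ℂ), (gab : ℂ) * ((starRingEnd ℂ) (z 0) * z 1);
        (gab : ℂ) * ((starRingEnd ℂ) (z 1) * z 0), ((Gb (sq2 z) + ‖z 1‖ ^ 2 * gbb : ℝ) : ℂ)] := by
  have n0 : ‖z 0‖ ^ 2 = (z 0).re * (z 0).re + (z 0).im * (z 0).im := by
    rw [← Complex.normSq_eq_norm_sq, Complex.normSq_apply]
  have n1 : ‖z 1‖ ^ 2 = (z 1).re * (z 1).re + (z 1).im * (z 1).im := by
    rw [← Complex.normSq_eq_norm_sq, Complex.normSq_apply]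
  rw [n0, n1]
  ext j l
  unfold complexHessian
  simp only [Matrix.of_apply]
  rw [hess_G h ha hb, hess_G h ha hb, hess_G h ha hb, hess_G h ha hb]
  fin_cases j <;> fin_cases l <;>
    simp [rlL_apply, eR, eI] <;>
    apply Complex.ext <;> simp <;> ring

/-! ### Positivity of two by two Hermitian matrices -/

theorem conj_eq (x : Cn 2) : star x = (x 0).re • eR 0 - (x 0).im • eI 0 +
    ((x 1).re • eR 1 - (x 1).im • eI 1) := by
  funext j
  fin_cases j <;> simp [eR, eI] <;> apply Complex.ext <;> simp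

theorem Iconj_eq (x : Cn 2) : Complex.I • star x = (x 0).re • eI 0 + (x 0).im • eR 0 +
    ((x 1).re • eI 1 + (x 1).im • eR 1) := by
  funext j
  fin_cases j <;> simp [eR, eI] <;> apply Complex.ext <;> simp

/-- The Levi form. -/
theorem levi {f : Cn 2 → ℝ} {z : Cn 2} (hf : ContDiffAt ℝ 2 f z) (x : Cn 2) :
    star x ⬝ᵥ (complexHessian f z).mulVec x =
      ((1 / 4 * (hess f z (star x) (star x) +
        hess f z (Complex.I • star x) (Complex.I • star x)) : ℝ) : ℂ) := by
  have s1 := hess_symm hf (eR 1) (eR 0)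
  have s2 := hess_symm hf (eI 1) (eI 0)
  have s3 := hess_symm hf (eI 0) (eR 0)
  have s4 := hess_symm hf (eI 1) (eR 1)
  have s5 := hess_symm hf (eI 1) (eR 0)
  have s6 := hess_symm hf (eR 1) (eI 0)
  rw [Iconj_eq]
  have hexp : ∀ a b c d : ℝ, ∀ v1 v2 v3 v4 : Cn 2,
      hess f z (a • v1 + b • v2 + (c • v3 + d • v4)) (a • v1 + b • v2 + (c • v3 + d • v4)) =
      a * a * hess f z v1 v1 + a * b * hess f z v1 v2 + a * c * hess f z v1 v3 +
        a * d * hess f z v1 v4 +
      (b * a * hess f z v2 v1 + b * b * hess f z v2 v2 + b * c * hess f z v2 v3 +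
        b * d * hess f z v2 v4) +
      (c * a * hess f z v3 v1 + c * b * hess f z v3 v2 + c * c * hess f z v3 v3 +
        c * d * hess f z v3 v4) +
      (d * a * hess f z v4 v1 + d * b * hess f z v4 v2 + d * c * hess f z v4 v3 +
        d * d * hess f z v4 v4) := by
    intro a b c d v1 v2 v3 v4
    unfold hess
    simp only [map_add, map_smul, add_apply, smul_apply,
      smul_eq_mul]
    ring
  have hconj : hess f z (star x) (star x) =
      hess f z ((x 0).re • eR 0 + (-(x 0).im) • eI 0 + ((x 1).re • eR 1 + (-(x 1).im) • eI 1))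
        ((x 0).re • eR 0 + (-(x 0).im) • eI 0 + ((x 1).re • eR 1 + (-(x 1).im) • eI 1)) := by
    have : star x = (x 0).re • eR 0 + (-(x 0).im) • eI 0 + ((x 1).re • eR 1 + (-(x 1).im) • eI 1) := by
      rw [conj_eq]
      simp only [neg_smul, sub_eq_add_neg]
    rw [← this]
  rw [hconj, hexp, hexp]
  simp only [s1, s2, s3, s4, s5, s6]
  simp only [dotProduct, Matrix.mulVec, Fin.sum_univ_two, complexHessian, Matrix.of_apply,
    Pi.star_apply, RCLike.star_def]
  simp only [s1, s2, s3, s4, s5, s6]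
  apply Complex.ext <;> simp <;> ring

theorem psd_of_hess {f : Cn 2 → ℝ} {z : Cn 2} (hf : ContDiffAt ℝ 2 f z)
    (h : ∀ v, 0 ≤ hess f z v v) : (complexHessian f z).PosSemidef := by
  refine Matrix.PosSemidef.of_dotProduct_mulVec_nonneg (complexHessian_isHermitian hf) ?_
  intro x
  rw [levi hf]
  have : 0 ≤ 1 / 4 * (hess f z (star x) (star x) +
        hess f z (Complex.I • star x) (Complex.I • star x)) := by
    have h1 := h (star x)
    have h2 := h (Complex.I • star x)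
    linarith
  exact_mod_cast this

/-- Criterion for positive semidefiniteness. -/
theorem psd_iff2 {M : Matrix (Fin 2) (Fin 2) ℂ} (hM : M.IsHermitian) (h0 : 0 ≤ (M 0 0).re)
    (h1 : 0 ≤ (M 1 1).re) (hdet : 0 ≤ M.det.re) : M.PosSemidef := by
  refine Matrix.PosSemidef.of_dotProduct_mulVec_nonneg hM ?_
  intro x
  have e00 : M 0 0 = ((M 0 0).re : ℂ) := by
    have := hM.apply 0 0
    exact (Complex.conj_eq_iff_re.1 this).symm
  have e11 : M 1 1 = ((M 1 1).re : ℂ) := by
    have := hM.apply 1 1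
    exact (Complex.conj_eq_iff_re.1 this).symm
  have e10 : M 1 0 = (starRingEnd ℂ) (M 0 1) := (hM.apply 1 0).symm
  set p := (M 0 0).re with hp
  set q := (M 1 1).re with hq
  set m := M 0 1 with hm
  have hd : 0 ≤ p * q - Complex.normSq m := by
    have h2 : M.det = ((p * q - Complex.normSq m : ℝ) : ℂ) := by
      rw [Matrix.det_fin_two, e10, e00, e11, ← hm, Complex.mul_conj]
      push_cast
      ring
    rw [h2, Complex.ofReal_re] at hdet
    exact hdet
  have key : star x ⬝ᵥ M.mulVec x = ((p * Complex.normSq (x 0) + q * Complex.normSq (x 1) +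
      2 * ((starRingEnd ℂ) (x 0) * m * x 1).re : ℝ) : ℂ) := by
    simp only [dotProduct, Matrix.mulVec, Fin.sum_univ_two, Pi.star_apply, RCLike.star_def]
    rw [e10, e00, e11, ← hm]
    apply Complex.ext <;> simp [Complex.normSq_apply] <;> ring
  rw [key]
  have h3 : ((starRingEnd ℂ) (x 0) * m * x 1).re ^ 2 ≤
      Complex.normSq (x 0) * Complex.normSq m * Complex.normSq (x 1) := by
    have h4 := Complex.abs_re_le_norm ((starRingEnd ℂ) (x 0) * m * x 1)
    have h5 : ((starRingEnd ℂ) (x 0) * m * x 1).re ^ 2 ≤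
        ‖(starRingEnd ℂ) (x 0) * m * x 1‖ ^ 2 := by
      rw [← sq_abs]; exact pow_le_pow_left₀ (abs_nonneg _) h4 2
    refine h5.trans (le_of_eq ?_)
    rw [← Complex.normSq_eq_norm_sq, map_mul, map_mul, Complex.normSq_conj]
  have n0 := Complex.normSq_nonneg (x 0)
  have n1 := Complex.normSq_nonneg (x 1)
  have nm := Complex.normSq_nonneg m
  have h6 : 0 ≤ p * Complex.normSq (x 0) + q * Complex.normSq (x 1) +
      2 * ((starRingEnd ℂ) (x 0) * m * x 1).re := by
    set r := ((starRingEnd ℂ) (x 0) * m * x 1).re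
    have h7 : r ^ 2 ≤ (p * Complex.normSq (x 0)) * (q * Complex.normSq (x 1)) := by
      calc r ^ 2 ≤ Complex.normSq (x 0) * Complex.normSq m * Complex.normSq (x 1) := h3
        _ = Complex.normSq m * (Complex.normSq (x 0) * Complex.normSq (x 1)) := by ring
        _ ≤ (p * q) * (Complex.normSq (x 0) * Complex.normSq (x 1)) :=
            mul_le_mul_of_nonneg_right (by linarith) (mul_nonneg n0 n1)
        _ = _ := by ring
    have hA : 0 ≤ p * Complex.normSq (x 0) := mul_nonneg h0 n0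
    have hB : 0 ≤ q * Complex.normSq (x 1) := mul_nonneg h1 n1
    have h8 : (2 * |r|) ^ 2 ≤ (p * Complex.normSq (x 0) + q * Complex.normSq (x 1)) ^ 2 := by
      have : (2 * |r|) ^ 2 = 4 * r ^ 2 := by rw [mul_pow, sq_abs]; ring
      rw [this]
      nlinarith [sq_nonneg (p * Complex.normSq (x 0) - q * Complex.normSq (x 1))]
    have h9 := abs_le_of_sq_le_sq' h8 (by linarith)
    have h10 : -|r| ≤ r := neg_abs_le r
    linarith [h9.2]
  exact_mod_cast h6

/-- Entries and determinant of a positive semidefinite matrix. -/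
theorem psd_entries {M : Matrix (Fin 2) (Fin 2) ℂ} (hM : M.PosSemidef) :
    0 ≤ (M 0 0).re ∧ 0 ≤ (M 1 1).re ∧
      M.det.re = (M 0 0).re * (M 1 1).re - Complex.normSq (M 0 1) ∧ 0 ≤ M.det.re := by
  have h0 : 0 ≤ M 0 0 := hM.diag_nonneg
  have h1 : 0 ≤ M 1 1 := hM.diag_nonneg
  have hd : 0 ≤ M.det := hM.det_nonneg
  have e10 : M 1 0 = (starRingEnd ℂ) (M 0 1) := (hM.isHermitian.apply 1 0).symm
  have i0 : (M 0 0).im = 0 := (Complex.nonneg_iff.1 h0).2.symm
  refine ⟨(Complex.nonneg_iff.1 h0).1, (Complex.nonneg_iff.1 h1).1, ?_, (Complex.nonneg_iff.1 hd).1⟩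
  rw [Matrix.det_fin_two, e10, Complex.mul_conj]
  simp [i0]

/-- The determinant is monotone on positive semidefinite matrices. -/
theorem det_mono {M N : Matrix (Fin 2) (Fin 2) ℂ} (hM : M.PosSemidef) (hN : N.PosSemidef) :
    M.det.re ≤ (M + N).det.re := by
  obtain ⟨m0, m1, mdet, mpos⟩ := psd_entries hM
  obtain ⟨n0, n1, ndet, npos⟩ := psd_entries hN
  obtain ⟨-, -, sdet, -⟩ := psd_entries (hM.add hN)
  rw [sdet, mdet]
  rw [mdet] at mpos
  rw [ndet] at npos
  simp only [Matrix.add_apply, Complex.add_re]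
  set a := (M 0 0).re
  set b := (M 1 1).re
  set c := (N 0 0).re
  set d := (N 1 1).re
  set μ := M 0 1
  set ν := N 0 1
  have h1 : Complex.normSq (μ + ν) = Complex.normSq μ + Complex.normSq ν +
      2 * (μ * (starRingEnd ℂ) ν).re := Complex.normSq_add μ ν
  rw [h1]
  have h2 : (μ * (starRingEnd ℂ) ν).re ^ 2 ≤ Complex.normSq μ * Complex.normSq ν := by
    have h4 := Complex.abs_re_le_norm (μ * (starRingEnd ℂ) ν)
    have h5 : (μ * (starRingEnd ℂ) ν).re ^ 2 ≤ ‖μ * (starRingEnd ℂ) ν‖ ^ 2 := by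
      rw [← sq_abs]; exact pow_le_pow_left₀ (abs_nonneg _) h4 2
    refine h5.trans (le_of_eq ?_)
    rw [← Complex.normSq_eq_norm_sq, map_mul, Complex.normSq_conj]
  have h3 : 2 * (μ * (starRingEnd ℂ) ν).re ≤ a * d + b * c := by
    have p1 : 0 ≤ a * d := mul_nonneg m0 n1
    have p2 : 0 ≤ b * c := mul_nonneg m1 n0
    have nμ := Complex.normSq_nonneg μ
    have nν := Complex.normSq_nonneg ν
    have h4 : (2 * (μ * (starRingEnd ℂ) ν).re) ^ 2 ≤ (a * d + b * c) ^ 2 := by
      have h5 : Complex.normSq μ * Complex.normSq ν ≤ (a * b) * (c * d) :=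
        mul_le_mul (by linarith) (by linarith) nν (mul_nonneg m0 m1)
      nlinarith [sq_nonneg (a * d - b * c)]
    exact (abs_le_of_sq_le_sq' h4 (by linarith)).2
  linarith

/-- Criterion for positive definiteness. -/
theorem pd_of_det {M : Matrix (Fin 2) (Fin 2) ℂ} (hM : M.PosSemidef) (hdet : M.det ≠ 0) :
    M.PosDef := by
  rw [hM.posDef_iff_isUnit]
  rw [Matrix.isUnit_iff_isUnit_det]
  exact isUnit_iff_ne_zero.2 hdet

/-! ### Derivatives of functions of two real variables -/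

theorem cov_fst (p : ℝ × ℝ) : HasFDerivAt (fun p : ℝ × ℝ => p.1) (cov 1 0) p := by
  have h : HasFDerivAt (fun p : ℝ × ℝ => p.1) (ContinuousLinearMap.fst ℝ ℝ ℝ) p := hasFDerivAt_fst
  refine h.congr_fderiv ?_
  simp [cov]

theorem cov_snd (p : ℝ × ℝ) : HasFDerivAt (fun p : ℝ × ℝ => p.2) (cov 0 1) p := by
  have h : HasFDerivAt (fun p : ℝ × ℝ => p.2) (ContinuousLinearMap.snd ℝ ℝ ℝ) p := hasFDerivAt_snd
  refine h.congr_fderiv ?_
  simp [cov]

theorem cov_const (c : ℝ) (p : ℝ × ℝ) : HasFDerivAt (fun _ : ℝ × ℝ => c) (cov 0 0) p := by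
  refine (hasFDerivAt_const c p).congr_fderiv ?_
  simp [cov]

theorem cov_add {f g : ℝ × ℝ → ℝ} {a b c d : ℝ} {p : ℝ × ℝ} (hf : HasFDerivAt f (cov a b) p)
    (hg : HasFDerivAt g (cov c d) p) : HasFDerivAt (fun p => f p + g p) (cov (a + c) (b + d)) p := by
  refine (hf.add hg).congr_fderiv ?_
  ext <;> simp [cov_apply]

theorem cov_mul {f g : ℝ × ℝ → ℝ} {a b c d : ℝ} {p : ℝ × ℝ} (hf : HasFDerivAt f (cov a b) p)
    (hg : HasFDerivAt g (cov c d) p) :
    HasFDerivAt (fun p => f p * g p) (cov (f p * c + g p * a) (f p * d + g p * b)) p := by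
  refine (hf.mul hg).congr_fderiv ?_
  ext <;> simp [cov_apply]

theorem cov_comp {f : ℝ × ℝ → ℝ} {φ : ℝ → ℝ} {a b c : ℝ} {p : ℝ × ℝ}
    (hφ : HasDerivAt φ c (f p)) (hf : HasFDerivAt f (cov a b) p) :
    HasFDerivAt (fun p => φ (f p)) (cov (c * a) (c * b)) p := by
  refine (hφ.comp_hasFDerivAt p hf).congr_fderiv ?_
  ext <;> simp [cov_apply]

theorem cov_congr {f : ℝ × ℝ → ℝ} {a b a' b' : ℝ} {p : ℝ × ℝ} (hf : HasFDerivAt f (cov a b) p)
    (ha : a = a') (hb : b = b') : HasFDerivAt f (cov a' b') p := by rw [← ha, ← hb]; exact hf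

/-! ### The potentials -/

section potentials

variable {z : Cn 2}

/-- log(1 + a(1+b)) -/
theorem hessian_T0 (z : Cn 2) {a b D : ℝ} (ha : a = ‖z 0‖ ^ 2) (hb : b = ‖z 1‖ ^ 2)
    (hD : D = 1 + a * (1 + b)) :
    complexHessian (fun z : Cn 2 => Real.log (1 + ‖z 0‖ ^ 2 * (1 + ‖z 1‖ ^ 2))) z =
      !![(((1 + b) / D ^ 2 : ℝ) : ℂ), ((1 / D ^ 2 : ℝ) : ℂ) * ((starRingEnd ℂ) (z 0) * z 1);
        ((1 / D ^ 2 : ℝ) : ℂ) * ((starRingEnd ℂ) (z 1) * z 0), ((a * (1 + a) / D ^ 2 : ℝ) : ℂ)] := by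
  have ha0 : 0 ≤ a := by rw [ha]; positivity
  have hb0 : 0 ≤ b := by rw [hb]; positivity
  have hD0 : 0 < D := by rw [hD]; positivity
  have hp : sq2 z = (a, b) := by rw [ha, hb]; rfl
  have dD : ∀ p : ℝ × ℝ, HasFDerivAt (fun p : ℝ × ℝ => 1 + p.1 * (1 + p.2))
      (cov (1 + p.2) p.1) p := by
    intro p
    refine cov_congr (cov_add (cov_const 1 p) (cov_mul (cov_fst p)
      (cov_add (cov_const 1 p) (cov_snd p)))) ?_ ?_ <;> ring
  have h1 : ∀ p : ℝ × ℝ, 0 < 1 + p.1 * (1 + p.2) →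
      HasFDerivAt (fun p : ℝ × ℝ => Real.log (1 + p.1 * (1 + p.2)))
        (cov ((1 + p.2) / (1 + p.1 * (1 + p.2))) (p.1 / (1 + p.1 * (1 + p.2)))) p := by
    intro p hpos
    refine cov_congr (cov_comp (f := fun p : ℝ × ℝ => 1 + p.1 * (1 + p.2))
      (Real.hasDerivAt_log hpos.ne') (dD p)) ?_ ?_ <;> ring
  have hinv : HasFDerivAt (fun p : ℝ × ℝ => (1 + p.1 * (1 + p.2))⁻¹)
      (cov (-(D ^ 2)⁻¹ * (1 + b)) (-(D ^ 2)⁻¹ * a)) (a, b) := by
    refine cov_comp (f := fun p : ℝ × ℝ => 1 + p.1 * (1 + p.2)) (φ := fun x => x⁻¹) ?_ (dD (a, b))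
    have := hasDerivAt_inv (x := 1 + a * (1 + b)) (by rw [← hD]; exact hD0.ne')
    rw [← hD] at this
    simpa [hD] using this
  have h2 : HasFDerivAt (fun p : ℝ × ℝ => (1 + p.2) / (1 + p.1 * (1 + p.2)))
      (cov (-(1 + b) ^ 2 / D ^ 2) (1 / D ^ 2)) (a, b) := by
    have := cov_mul (cov_add (cov_const 1 (a, b)) (cov_snd (a, b))) hinv
    simp only [← hD] at this
    refine cov_congr this ?_ ?_
    · field_simp; ring
    · field_simp; rw [hD]; ring
  have h3 : HasFDerivAt (fun p : ℝ × ℝ => p.1 / (1 + p.1 * (1 + p.2)))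
      (cov (1 / D ^ 2) (-a ^ 2 / D ^ 2)) (a, b) := by
    have := cov_mul (cov_fst (a, b)) hinv
    simp only [← hD] at this
    refine cov_congr this ?_ ?_
    · field_simp; rw [hD]; ring
    · field_simp; ring
  have hev : ∀ᶠ p in 𝓝 (sq2 z), HasFDerivAt (fun p : ℝ × ℝ => Real.log (1 + p.1 * (1 + p.2)))
        (cov ((1 + p.2) / (1 + p.1 * (1 + p.2))) (p.1 / (1 + p.1 * (1 + p.2)))) p := by
    have hc : Continuous (fun p : ℝ × ℝ => 1 + p.1 * (1 + p.2)) := by fun_prop
    have : ∀ᶠ p in 𝓝 (sq2 z), 0 < 1 + p.1 * (1 + p.2) := by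
      apply hc.continuousAt.eventually_const_lt
      rw [hp]; simpa [← hD] using hD0
    exact this.mono h1
  have key := complexHessian_G hev (by rw [hp]; exact h2) (by rw [hp]; exact h3)
  have hfun : (fun z : Cn 2 => Real.log (1 + ‖z 0‖ ^ 2 * (1 + ‖z 1‖ ^ 2))) = fun z =>
      (fun p : ℝ × ℝ => Real.log (1 + p.1 * (1 + p.2))) (sq2 z) := rfl
  rw [hfun, key, hp, ← ha, ← hb]
  simp only
  rw [← hD]
  have e1 : (1 + b) / D + a * (-(1 + b) ^ 2 / D ^ 2) = (1 + b) / D ^ 2 := by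
    field_simp; rw [hD]; ring
  have e2 : a / D + b * (-a ^ 2 / D ^ 2) = a * (1 + a) / D ^ 2 := by
    field_simp; rw [hD]; ring
  rw [e1, e2]

/-- log(a + (1+b)) -/
theorem hessian_T1 (z : Cn 2) {a b D : ℝ} (ha : a = ‖z 0‖ ^ 2) (hb : b = ‖z 1‖ ^ 2)
    (hD : D = a + (1 + b)) :
    complexHessian (fun z : Cn 2 => Real.log (‖z 0‖ ^ 2 + (1 + ‖z 1‖ ^ 2))) z =
      !![(((1 + b) / D ^ 2 : ℝ) : ℂ), ((-1 / D ^ 2 : ℝ) : ℂ) * ((starRingEnd ℂ) (z 0) * z 1);
        ((-1 / D ^ 2 : ℝ) : ℂ) * ((starRingEnd ℂ) (z 1) * z 0), (((1 + a) / D ^ 2 : ℝ) : ℂ)] := by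
  have ha0 : 0 ≤ a := by rw [ha]; positivity
  have hb0 : 0 ≤ b := by rw [hb]; positivity
  have hD0 : 0 < D := by rw [hD]; positivity
  have hp : sq2 z = (a, b) := by rw [ha, hb]; rfl
  have dD : ∀ p : ℝ × ℝ, HasFDerivAt (fun p : ℝ × ℝ => p.1 + (1 + p.2)) (cov 1 1) p := by
    intro p
    refine cov_congr (cov_add (cov_fst p) (cov_add (cov_const 1 p) (cov_snd p))) ?_ ?_ <;> ring
  have h1 : ∀ p : ℝ × ℝ, 0 < p.1 + (1 + p.2) →
      HasFDerivAt (fun p : ℝ × ℝ => Real.log (p.1 + (1 + p.2)))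
        (cov (p.1 + (1 + p.2))⁻¹ (p.1 + (1 + p.2))⁻¹) p := by
    intro p hpos
    refine cov_congr (cov_comp (f := fun p : ℝ × ℝ => p.1 + (1 + p.2))
      (Real.hasDerivAt_log hpos.ne') (dD p)) ?_ ?_ <;> ring
  have hinv : HasFDerivAt (fun p : ℝ × ℝ => (p.1 + (1 + p.2))⁻¹)
      (cov (-1 / D ^ 2) (-1 / D ^ 2)) (a, b) := by
    refine cov_congr (a := (-(D ^ 2)⁻¹ * 1)) (b := (-(D ^ 2)⁻¹ * 1))
      (cov_comp (f := fun p : ℝ × ℝ => p.1 + (1 + p.2)) (φ := fun x => x⁻¹) ?_ (dD (a, b))) ?_ ?_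
    · have := hasDerivAt_inv (x := a + (1 + b)) (by rw [← hD]; exact hD0.ne')
      rw [← hD] at this
      simpa [hD] using this
    · field_simp
    · field_simp
  have hev : ∀ᶠ p in 𝓝 (sq2 z), HasFDerivAt (fun p : ℝ × ℝ => Real.log (p.1 + (1 + p.2)))
        (cov (p.1 + (1 + p.2))⁻¹ (p.1 + (1 + p.2))⁻¹) p := by
    have hc : Continuous (fun p : ℝ × ℝ => p.1 + (1 + p.2)) := by fun_prop
    have : ∀ᶠ p in 𝓝 (sq2 z), 0 < p.1 + (1 + p.2) := by
      apply hc.continuousAt.eventually_const_lt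
      rw [hp]; simpa [← hD] using hD0
    exact this.mono h1
  have key := complexHessian_G hev (by rw [hp]; exact hinv) (by rw [hp]; exact hinv)
  have hfun : (fun z : Cn 2 => Real.log (‖z 0‖ ^ 2 + (1 + ‖z 1‖ ^ 2))) = fun z =>
      (fun p : ℝ × ℝ => Real.log (p.1 + (1 + p.2))) (sq2 z) := rfl
  rw [hfun, key, hp, ← ha, ← hb]
  simp only
  rw [← hD]
  have e1 : D⁻¹ + a * (-1 / D ^ 2) = (1 + b) / D ^ 2 := by
    field_simp; rw [hD]; ring
  have e2 : D⁻¹ + b * (-1 / D ^ 2) = (1 + a) / D ^ 2 := by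
    field_simp; rw [hD]; ring
  rw [e1, e2]

/-- log(1+b) -/
theorem hessian_E (z : Cn 2) {b : ℝ} (hb : b = ‖z 1‖ ^ 2) :
    complexHessian (fun z : Cn 2 => Real.log (1 + ‖z 1‖ ^ 2)) z =
      !![0, 0; 0, ((1 / (1 + b) ^ 2 : ℝ) : ℂ)] := by
  have hb0 : 0 ≤ b := by rw [hb]; positivity
  have hp : sq2 z = (‖z 0‖ ^ 2, b) := by rw [hb]; rfl
  have dD : ∀ p : ℝ × ℝ, HasFDerivAt (fun p : ℝ × ℝ => 1 + p.2) (cov 0 1) p := by
    intro p
    refine cov_congr (cov_add (cov_const 1 p) (cov_snd p)) ?_ ?_ <;> ring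
  have h1 : ∀ p : ℝ × ℝ, 0 < 1 + p.2 →
      HasFDerivAt (fun p : ℝ × ℝ => Real.log (1 + p.2)) (cov 0 (1 + p.2)⁻¹) p := by
    intro p hpos
    refine cov_congr (cov_comp (f := fun p : ℝ × ℝ => 1 + p.2)
      (Real.hasDerivAt_log hpos.ne') (dD p)) ?_ ?_ <;> ring
  have hinv : HasFDerivAt (fun p : ℝ × ℝ => (1 + p.2)⁻¹) (cov 0 (-1 / (1 + b) ^ 2))
      (‖z 0‖ ^ 2, b) := by
    refine cov_congr (a := (-((1 + b) ^ 2)⁻¹ * 0)) (b := (-((1 + b) ^ 2)⁻¹ * 1))
      (cov_comp (f := fun p : ℝ × ℝ => 1 + p.2) (φ := fun x => x⁻¹) ?_ (dD _)) ?_ ?_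
    · exact hasDerivAt_inv (x := 1 + b) (by positivity)
    · ring
    · field_simp
  have hev : ∀ᶠ p in 𝓝 (sq2 z), HasFDerivAt (fun p : ℝ × ℝ => Real.log (1 + p.2))
        (cov ((fun _ => 0) p) (1 + p.2)⁻¹) p := by
    have hc : Continuous (fun p : ℝ × ℝ => 1 + p.2) := by fun_prop
    have : ∀ᶠ p in 𝓝 (sq2 z), 0 < 1 + p.2 := by
      apply hc.continuousAt.eventually_const_lt
      rw [hp]; positivity
    exact this.mono h1
  have key := complexHessian_G hev (cov_const 0 _) (by rw [hp]; exact hinv)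
  have hfun : (fun z : Cn 2 => Real.log (1 + ‖z 1‖ ^ 2)) = fun z =>
      (fun p : ℝ × ℝ => Real.log (1 + p.2)) (sq2 z) := rfl
  rw [hfun, key, hp, ← hb]
  simp only
  have e2 : (1 + b)⁻¹ + b * (-1 / (1 + b) ^ 2) = 1 / (1 + b) ^ 2 := by
    field_simp; ring
  rw [e2]
  simp

/-- log‖z j‖² is pluriharmonic off its pole -/
theorem hessian_log0 (z : Cn 2) (hz : z 0 ≠ 0) :
    complexHessian (fun z : Cn 2 => Real.log (‖z 0‖ ^ 2)) z = 0 := by
  have ha0 : 0 < ‖z 0‖ ^ 2 := by positivity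
  have h1 : ∀ p : ℝ × ℝ, 0 < p.1 →
      HasFDerivAt (fun p : ℝ × ℝ => Real.log p.1) (cov p.1⁻¹ 0) p := by
    intro p hpos
    refine cov_congr (cov_comp (f := fun p : ℝ × ℝ => p.1)
      (Real.hasDerivAt_log hpos.ne') (cov_fst p)) ?_ ?_ <;> ring
  have hinv : HasFDerivAt (fun p : ℝ × ℝ => p.1⁻¹) (cov (-1 / (‖z 0‖ ^ 2) ^ 2) 0) (sq2 z) := by
    refine cov_congr (a := (-((‖z 0‖ ^ 2) ^ 2)⁻¹ * 1)) (b := (-((‖z 0‖ ^ 2) ^ 2)⁻¹ * 0))
      (cov_comp (f := fun p : ℝ × ℝ => p.1) (φ := fun x => x⁻¹) ?_ (cov_fst _)) ?_ ?_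
    · exact hasDerivAt_inv (x := ‖z 0‖ ^ 2) (by positivity)
    · field_simp
    · ring
  have hev : ∀ᶠ p in 𝓝 (sq2 z), HasFDerivAt (fun p : ℝ × ℝ => Real.log p.1)
        (cov p.1⁻¹ ((fun _ => 0) p)) p := by
    have : ∀ᶠ p in 𝓝 (sq2 z), 0 < p.1 := by
      apply continuous_fst.continuousAt.eventually_const_lt
      exact ha0
    exact this.mono h1
  have key := complexHessian_G hev hinv (cov_const 0 _)
  have hfun : (fun z : Cn 2 => Real.log (‖z 0‖ ^ 2)) = fun z =>
      (fun p : ℝ × ℝ => Real.log p.1) (sq2 z) := rfl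
  rw [hfun, key]
  have e2 : (sq2 z).1⁻¹ + ‖z 0‖ ^ 2 * (-1 / (‖z 0‖ ^ 2) ^ 2) = 0 := by
    simp only [sq2]; field_simp; ring
  rw [e2]
  ext i j
  fin_cases i <;> fin_cases j <;> simp

theorem hessian_log1 (z : Cn 2) (hz : z 1 ≠ 0) :
    complexHessian (fun z : Cn 2 => Real.log (‖z 1‖ ^ 2)) z = 0 := by
  have ha0 : 0 < ‖z 1‖ ^ 2 := by positivity
  have h1 : ∀ p : ℝ × ℝ, 0 < p.2 →
      HasFDerivAt (fun p : ℝ × ℝ => Real.log p.2) (cov 0 p.2⁻¹) p := by
    intro p hpos
    refine cov_congr (cov_comp (f := fun p : ℝ × ℝ => p.2)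
      (Real.hasDerivAt_log hpos.ne') (cov_snd p)) ?_ ?_ <;> ring
  have hinv : HasFDerivAt (fun p : ℝ × ℝ => p.2⁻¹) (cov 0 (-1 / (‖z 1‖ ^ 2) ^ 2)) (sq2 z) := by
    refine cov_congr (a := (-((‖z 1‖ ^ 2) ^ 2)⁻¹ * 0)) (b := (-((‖z 1‖ ^ 2) ^ 2)⁻¹ * 1))
      (cov_comp (f := fun p : ℝ × ℝ => p.2) (φ := fun x => x⁻¹) ?_ (cov_snd _)) ?_ ?_
    · exact hasDerivAt_inv (x := ‖z 1‖ ^ 2) (by positivity)
    · ring
    · field_simp
  have hev : ∀ᶠ p in 𝓝 (sq2 z), HasFDerivAt (fun p : ℝ × ℝ => Real.log p.2)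
        (cov ((fun _ => 0) p) p.2⁻¹) p := by
    have : ∀ᶠ p in 𝓝 (sq2 z), 0 < p.2 := by
      apply continuous_snd.continuousAt.eventually_const_lt
      exact ha0
    exact this.mono h1
  have key := complexHessian_G hev (cov_const 0 _) hinv
  have hfun : (fun z : Cn 2 => Real.log (‖z 1‖ ^ 2)) = fun z =>
      (fun p : ℝ × ℝ => Real.log p.2) (sq2 z) := rfl
  rw [hfun, key]
  have e2 : (sq2 z).2⁻¹ + ‖z 1‖ ^ 2 * (-1 / (‖z 1‖ ^ 2) ^ 2) = 0 := by
    simp only [sq2]; field_simp; ring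
  rw [e2]
  ext i j
  fin_cases i <;> fin_cases j <;> simp

end potentials

/-! ### The subsolution -/

/-- 2 log(1 + √(a(1+b))) off a = 0: entries of the complex Hessian -/
theorem hessian_U0 (z : Cn 2) (hz : z 0 ≠ 0) {a b w y : ℝ} (ha : a = ‖z 0‖ ^ 2)
    (hb : b = ‖z 1‖ ^ 2) (hw : w = 1 + b) (hy : y = Real.sqrt (a * w)) :
    complexHessian (fun z : Cn 2 =>
        2 * Real.log (1 + Real.sqrt (‖z 0‖ ^ 2 * (1 + ‖z 1‖ ^ 2)))) z =
      !![((w / (2 * y * (1 + y) ^ 2) : ℝ) : ℂ),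
        ((1 / (2 * y * (1 + y) ^ 2) : ℝ) : ℂ) * ((starRingEnd ℂ) (z 0) * z 1);
        ((1 / (2 * y * (1 + y) ^ 2) : ℝ) : ℂ) * ((starRingEnd ℂ) (z 1) * z 0),
        ((a * (w + 1 + 2 * y) / (2 * w * y * (1 + y) ^ 2) : ℝ) : ℂ)] := by
  have ha0 : 0 < a := by rw [ha]; positivity
  have hb0 : 0 ≤ b := by rw [hb]; positivity
  have hw0 : 0 < w := by rw [hw]; positivity
  have hy0 : 0 < y := by rw [hy]; exact Real.sqrt_pos.2 (mul_pos ha0 hw0)
  have hy2 : y ^ 2 = a * w := by rw [hy]; exact Real.sq_sqrt (mul_pos ha0 hw0).le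
  have hp : sq2 z = (a, b) := by rw [ha, hb]; rfl
  -- the function s = √(a(1+b))
  let sf : ℝ × ℝ → ℝ := fun p => Real.sqrt (p.1 * (1 + p.2))
  have dS : ∀ p : ℝ × ℝ, 0 < p.1 * (1 + p.2) →
      HasFDerivAt sf (cov ((1 + p.2) / (2 * sf p)) (p.1 / (2 * sf p))) p := by
    intro p hpos
    have hm : HasFDerivAt (fun p : ℝ × ℝ => p.1 * (1 + p.2)) (cov (1 + p.2) p.1) p := by
      refine cov_congr (cov_mul (cov_fst p) (cov_add (cov_const 1 p) (cov_snd p))) ?_ ?_ <;> ring
    refine cov_congr (cov_comp (φ := Real.sqrt) (Real.hasDerivAt_sqrt hpos.ne') hm) ?_ ?_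
    · simp only [sf]; ring
    · simp only [sf]; ring
  have hsp : sf (a, b) = y := by simp only [sf]; rw [hy, hw]
  have hpos0 : 0 < (a, b).1 * (1 + (a, b).2) := by
    show 0 < a * (1 + b)
    rw [← hw]; exact mul_pos ha0 hw0
  have dS0 := dS (a, b) hpos0
  rw [hsp] at dS0
  simp only [← hw] at dS0
  have h1 : ∀ p : ℝ × ℝ, 0 < p.1 * (1 + p.2) →
      HasFDerivAt (fun p : ℝ × ℝ => 2 * Real.log (1 + sf p))
        (cov ((1 + p.2) * (sf p * (1 + sf p))⁻¹) (p.1 * (sf p * (1 + sf p))⁻¹)) p := by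
    intro p hpos
    have hs0 : 0 < sf p := Real.sqrt_pos.2 hpos
    have hd : HasDerivAt (fun x : ℝ => 2 * Real.log (1 + x)) (2 * (1 + sf p)⁻¹) (sf p) := by
      have h2 : HasDerivAt (fun x : ℝ => 1 + x) 1 (sf p) := (hasDerivAt_id _).const_add 1
      have h3 := (h2.log (by positivity)).const_mul 2
      simpa using h3
    refine cov_congr (cov_comp (φ := fun x : ℝ => 2 * Real.log (1 + x)) hd (dS p hpos)) ?_ ?_
    · field_simp
    · field_simp
  have hφ : HasDerivAt (fun x : ℝ => (x * (1 + x))⁻¹) (-(1 + 2 * y) / (y * (1 + y)) ^ 2) y := by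
    have h2 : HasDerivAt (fun x : ℝ => x * (1 + x)) (1 + 2 * y) y := by
      have := (hasDerivAt_id y).mul ((hasDerivAt_id y).const_add 1)
      refine this.congr_deriv ?_
      simp; ring
    exact h2.inv (by positivity)
  have hφ2 : HasFDerivAt (fun p : ℝ × ℝ => (sf p * (1 + sf p))⁻¹)
      (cov (-(1 + 2 * y) / (y * (1 + y)) ^ 2 * (w / (2 * y)))
        (-(1 + 2 * y) / (y * (1 + y)) ^ 2 * (a / (2 * y)))) (a, b) :=
    cov_comp (φ := fun x : ℝ => (x * (1 + x))⁻¹) (by rw [hsp]; exact hφ) dS0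
  have h2 : HasFDerivAt (fun p : ℝ × ℝ => (1 + p.2) * (sf p * (1 + sf p))⁻¹)
      (cov (-(w ^ 2 * (1 + 2 * y)) / (2 * y ^ 3 * (1 + y) ^ 2)) (1 / (2 * y * (1 + y) ^ 2)))
      (a, b) := by
    have := cov_mul (cov_add (cov_const 1 (a, b)) (cov_snd (a, b))) hφ2
    simp only [← hw, hsp] at this
    refine cov_congr this ?_ ?_
    · field_simp; ring
    · have e : a = y ^ 2 / w := by rw [hy2]; field_simp
      rw [e]; field_simp; ring
  have h3 : HasFDerivAt (fun p : ℝ × ℝ => p.1 * (sf p * (1 + sf p))⁻¹)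
      (cov (1 / (2 * y * (1 + y) ^ 2)) (-(a ^ 2 * (1 + 2 * y)) / (2 * y ^ 3 * (1 + y) ^ 2)))
      (a, b) := by
    have := cov_mul (cov_fst (a, b)) hφ2
    simp only [hsp] at this
    refine cov_congr this ?_ ?_
    · have e : a = y ^ 2 / w := by rw [hy2]; field_simp
      rw [e]; field_simp; ring
    · field_simp; ring
  have hev : ∀ᶠ p in 𝓝 (sq2 z), HasFDerivAt (fun p : ℝ × ℝ => 2 * Real.log (1 + sf p))
        (cov ((1 + p.2) * (sf p * (1 + sf p))⁻¹) (p.1 * (sf p * (1 + sf p))⁻¹)) p := by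
    have hc : Continuous (fun p : ℝ × ℝ => p.1 * (1 + p.2)) := by fun_prop
    have : ∀ᶠ p in 𝓝 (sq2 z), 0 < p.1 * (1 + p.2) := by
      apply hc.continuousAt.eventually_const_lt
      rw [hp]; exact hpos0
    exact this.mono h1
  have key := complexHessian_G hev (by rw [hp]; exact h2) (by rw [hp]; exact h3)
  have hfun : (fun z : Cn 2 => 2 * Real.log (1 + Real.sqrt (‖z 0‖ ^ 2 * (1 + ‖z 1‖ ^ 2)))) =
      fun z => (fun p : ℝ × ℝ => 2 * Real.log (1 + sf p)) (sq2 z) := rfl
  rw [hfun, key, hp, ← ha, ← hb]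
  simp only [hsp]
  rw [← hw]
  have e1 : w * (y * (1 + y))⁻¹ + a * (-(w ^ 2 * (1 + 2 * y)) / (2 * y ^ 3 * (1 + y) ^ 2)) =
      w / (2 * y * (1 + y) ^ 2) := by
    have e : a = y ^ 2 / w := by rw [hy2]; field_simp
    rw [e]; field_simp; ring
  have e2 : a * (y * (1 + y))⁻¹ + b * (-(a ^ 2 * (1 + 2 * y)) / (2 * y ^ 3 * (1 + y) ^ 2)) =
      a * (w + 1 + 2 * y) / (2 * w * y * (1 + y) ^ 2) := by
    have e : a = y ^ 2 / w := by rw [hy2]; field_simp
    have e' : b = w - 1 := by rw [hw]; ring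
    rw [e, e']; field_simp; ring
  rw [e1, e2]

/-- 2 log(√a + √(1+b)) off a = 0: entries of the complex Hessian -/
theorem hessian_U1 (z : Cn 2) (hz : z 0 ≠ 0) {a b x y : ℝ} (ha : a = ‖z 0‖ ^ 2)
    (hb : b = ‖z 1‖ ^ 2) (hx : x = Real.sqrt a) (hy : y = Real.sqrt (1 + b)) :
    complexHessian (fun z : Cn 2 =>
        2 * Real.log (Real.sqrt (‖z 0‖ ^ 2) + Real.sqrt (1 + ‖z 1‖ ^ 2))) z =
      !![((y / (2 * x * (x + y) ^ 2) : ℝ) : ℂ),
        ((-1 / (2 * x * y * (x + y) ^ 2) : ℝ) : ℂ) * ((starRingEnd ℂ) (z 0) * z 1);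
        ((-1 / (2 * x * y * (x + y) ^ 2) : ℝ) : ℂ) * ((starRingEnd ℂ) (z 1) * z 0),
        (((x * (y ^ 2 + 1) + 2 * y) / (2 * y ^ 3 * (x + y) ^ 2) : ℝ) : ℂ)] := by
  have ha0 : 0 < a := by rw [ha]; positivity
  have hb0 : 0 ≤ b := by rw [hb]; positivity
  have hw0 : 0 < 1 + b := by positivity
  have hx0 : 0 < x := by rw [hx]; exact Real.sqrt_pos.2 ha0
  have hy0 : 0 < y := by rw [hy]; exact Real.sqrt_pos.2 hw0
  have hx2 : x ^ 2 = a := by rw [hx]; exact Real.sq_sqrt ha0.le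
  have hy2 : y ^ 2 = 1 + b := by rw [hy]; exact Real.sq_sqrt hw0.le
  have hp : sq2 z = (a, b) := by rw [ha, hb]; rfl
  let xf : ℝ × ℝ → ℝ := fun p => Real.sqrt p.1
  let yf : ℝ × ℝ → ℝ := fun p => Real.sqrt (1 + p.2)
  have dX : ∀ p : ℝ × ℝ, 0 < p.1 → HasFDerivAt xf (cov (1 / (2 * xf p)) 0) p := by
    intro p hpos
    refine cov_congr (cov_comp (φ := Real.sqrt) (Real.hasDerivAt_sqrt hpos.ne') (cov_fst p)) ?_ ?_
    · simp only [xf]; ring
    · ring
  have dY : ∀ p : ℝ × ℝ, 0 < 1 + p.2 → HasFDerivAt yf (cov 0 (1 / (2 * yf p))) p := by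
    intro p hpos
    refine cov_congr (cov_comp (φ := Real.sqrt) (Real.hasDerivAt_sqrt hpos.ne')
      (cov_add (cov_const 1 p) (cov_snd p))) ?_ ?_
    · ring
    · simp only [yf]; ring
  have hxp : xf (a, b) = x := by simp only [xf]; rw [hx]
  have hyp : yf (a, b) = y := by simp only [yf]; rw [hy]
  have dX0 := dX (a, b) ha0
  have dY0 := dY (a, b) hw0
  rw [hxp] at dX0
  rw [hyp] at dY0
  have h1 : ∀ p : ℝ × ℝ, 0 < p.1 → 0 < 1 + p.2 →
      HasFDerivAt (fun p : ℝ × ℝ => 2 * Real.log (xf p + yf p))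
        (cov (xf p * (xf p + yf p))⁻¹ (yf p * (xf p + yf p))⁻¹) p := by
    intro p hpa hpb
    have hs0 : 0 < xf p := Real.sqrt_pos.2 hpa
    have hs1 : 0 < yf p := Real.sqrt_pos.2 hpb
    have hd : HasDerivAt (fun x : ℝ => 2 * Real.log x) (2 * (xf p + yf p)⁻¹) (xf p + yf p) :=
      (Real.hasDerivAt_log (by positivity)).const_mul 2
    refine cov_congr (cov_comp (φ := fun x : ℝ => 2 * Real.log x) hd
      (cov_add (dX p hpa) (dY p hpb))) ?_ ?_
    · field_simp; ring
    · field_simp; ring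
  have hinv : ∀ c : ℝ, c ≠ 0 → HasDerivAt (fun x : ℝ => x⁻¹) (-(c ^ 2)⁻¹) c :=
    fun c hc => hasDerivAt_inv hc
  have h2 : HasFDerivAt (fun p : ℝ × ℝ => (xf p * (xf p + yf p))⁻¹)
      (cov (-(2 * x + y) / (2 * x ^ 3 * (x + y) ^ 2)) (-1 / (2 * x * y * (x + y) ^ 2)))
      (a, b) := by
    have hm := cov_mul dX0 (cov_add dX0 dY0)
    simp only [hxp, hyp] at hm
    have := cov_comp (φ := fun x : ℝ => x⁻¹) (hinv (x * (x + y)) (by positivity) |> fun h => by
      simpa only [hxp, hyp] using h) hm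
    refine cov_congr this ?_ ?_
    · field_simp; ring
    · field_simp; ring
  have h3 : HasFDerivAt (fun p : ℝ × ℝ => (yf p * (xf p + yf p))⁻¹)
      (cov (-1 / (2 * x * y * (x + y) ^ 2)) (-(x + 2 * y) / (2 * y ^ 3 * (x + y) ^ 2)))
      (a, b) := by
    have hm := cov_mul dY0 (cov_add dX0 dY0)
    simp only [hxp, hyp] at hm
    have := cov_comp (φ := fun x : ℝ => x⁻¹) (hinv (y * (x + y)) (by positivity) |> fun h => by
      simpa only [hxp, hyp] using h) hm
    refine cov_congr this ?_ ?_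
    · field_simp; ring
    · field_simp; ring
  have hev : ∀ᶠ p in 𝓝 (sq2 z), HasFDerivAt (fun p : ℝ × ℝ => 2 * Real.log (xf p + yf p))
        (cov (xf p * (xf p + yf p))⁻¹ (yf p * (xf p + yf p))⁻¹) p := by
    have t1 : ∀ᶠ p in 𝓝 (sq2 z), 0 < p.1 := by
      apply continuous_fst.continuousAt.eventually_const_lt
      rw [hp]; exact ha0
    have hc : Continuous (fun p : ℝ × ℝ => 1 + p.2) := by fun_prop
    have t2 : ∀ᶠ p in 𝓝 (sq2 z), 0 < 1 + p.2 := by
      apply hc.continuousAt.eventually_const_lt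
      rw [hp]; exact hw0
    filter_upwards [t1, t2] with p q1 q2
    exact h1 p q1 q2
  have key := complexHessian_G hev (by rw [hp]; exact h2) (by rw [hp]; exact h3)
  have hfun : (fun z : Cn 2 => 2 * Real.log (Real.sqrt (‖z 0‖ ^ 2) +
      Real.sqrt (1 + ‖z 1‖ ^ 2))) =
      fun z => (fun p : ℝ × ℝ => 2 * Real.log (xf p + yf p)) (sq2 z) := rfl
  rw [hfun, key, hp, ← ha, ← hb]
  simp only [hxp, hyp]
  have e1 : (x * (x + y))⁻¹ + a * (-(2 * x + y) / (2 * x ^ 3 * (x + y) ^ 2)) =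
      y / (2 * x * (x + y) ^ 2) := by
    rw [← hx2]; field_simp; ring
  have e2 : (y * (x + y))⁻¹ + b * (-(x + 2 * y) / (2 * y ^ 3 * (x + y) ^ 2)) =
      (x * (y ^ 2 + 1) + 2 * y) / (2 * y ^ 3 * (x + y) ^ 2) := by
    have e' : b = y ^ 2 - 1 := by rw [hy2]; ring
    rw [e']; field_simp; ring
  rw [e1, e2]

/-! ### The surface: the blow-up of the projective plane at a point

Points are pairs (P, Q) of matrices of orthogonal projections onto complex lines, P in C^3 and Q in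
C^2, such that the line of P is spanned by (z_0, z_1, z_2) and the line of Q contains (z_1, z_2). -/

/-- The ambient space of pairs of matrices. -/
abbrev Amb : Type := (Fin 3 → Fin 3 → ℂ) × (Fin 2 → Fin 2 → ℂ)

/-- Matrices of orthogonal projections onto complex lines: Hermitian, trace one, rank one. -/
def IsLine {m : ℕ} (P : Fin m → Fin m → ℂ) : Prop :=
  (∀ i j, P j i = (starRingEnd ℂ) (P i j)) ∧ (∑ i, P i i = 1) ∧
    ∀ i j k l, P i j * P k l = P i l * P k j

/-- The blow-up of the projective plane, as a subset of the space of pairs of matrices. -/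
def blowup : Set Amb :=
  {x | IsLine x.1 ∧ IsLine x.2 ∧
    ∀ (i j : Fin 2) (k : Fin 3) (l : Fin 2), x.1 i.succ k * x.2 j l = x.1 j.succ k * x.2 i l}

/-- The surface. -/
abbrev S : Type := blowup

theorem isLine_closed (m : ℕ) : IsClosed {P : Fin m → Fin m → ℂ | IsLine P} := by
  unfold IsLine
  simp only [ofPred_and, ofPred_forall]
  refine IsClosed.inter ?_ (IsClosed.inter ?_ ?_)
  · refine isClosed_iInter fun i => isClosed_iInter fun j => isClosed_eq (by fun_prop) ?_
    exact Complex.continuous_conj.comp (by fun_prop)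
  · exact isClosed_eq (by fun_prop) (by fun_prop)
  · refine isClosed_iInter fun i => isClosed_iInter fun j => isClosed_iInter fun k =>
      isClosed_iInter fun l => isClosed_eq (by fun_prop) (by fun_prop)

theorem blowup_closed : IsClosed blowup := by
  unfold blowup
  simp only [ofPred_and, ofPred_forall]
  refine IsClosed.inter ?_ (IsClosed.inter ?_ ?_)
  · exact (isLine_closed 3).preimage continuous_fst
  · exact (isLine_closed 2).preimage continuous_snd
  · refine isClosed_iInter fun i => isClosed_iInter fun j => isClosed_iInter fun k =>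
      isClosed_iInter fun l => isClosed_eq (by fun_prop) (by fun_prop)

/-- |P i k|^2 = P i i * P k k -/
theorem IsLine.sq {m : ℕ} {P : Fin m → Fin m → ℂ} (h : IsLine P) (i k : Fin m) :
    ((‖P i k‖ ^ 2 : ℝ) : ℂ) = P i i * P k k := by
  have h1 := h.2.2 i i k k
  have h2 := h.1 i k
  rw [h1, h2, ← Complex.normSq_eq_norm_sq, Complex.mul_conj]

theorem IsLine.diag {m : ℕ} {P : Fin m → Fin m → ℂ} (h : IsLine P) (k : Fin m) :
    P k k = ((∑ i, ‖P i k‖ ^ 2 : ℝ) : ℂ) := by
  have h1 : P k k = (∑ i, P i i) * P k k := by rw [h.2.1, one_mul]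
  rw [h1, Finset.sum_mul, Complex.ofReal_sum]
  apply Finset.sum_congr rfl
  intro i _
  rw [h.sq]

theorem IsLine.diag_re {m : ℕ} {P : Fin m → Fin m → ℂ} (h : IsLine P) (k : Fin m) :
    (((P k k).re : ℝ) : ℂ) = P k k := by
  rw [h.diag k, Complex.ofReal_re]

theorem IsLine.diag_nonneg {m : ℕ} {P : Fin m → Fin m → ℂ} (h : IsLine P) (k : Fin m) :
    0 ≤ (P k k).re := by
  rw [h.diag k, Complex.ofReal_re]
  positivity

theorem IsLine.sum_re {m : ℕ} {P : Fin m → Fin m → ℂ} (h : IsLine P) :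
    ∑ i, (P i i).re = 1 := by
  rw [← Complex.re_sum, h.2.1, Complex.one_re]

theorem IsLine.diag_le {m : ℕ} {P : Fin m → Fin m → ℂ} (h : IsLine P) (k : Fin m) :
    (P k k).re ≤ 1 := by
  rw [← h.sum_re]
  exact Finset.single_le_sum (f := fun i => (P i i).re) (fun i _ => h.diag_nonneg i)
    (Finset.mem_univ k)

theorem IsLine.norm_le {m : ℕ} {P : Fin m → Fin m → ℂ} (h : IsLine P) (i k : Fin m) :
    ‖P i k‖ ≤ 1 := by
  have h1 := h.sq i k
  rw [← h.diag_re i, ← h.diag_re k] at h1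
  have h2 : ‖P i k‖ ^ 2 = (P i i).re * (P k k).re := by exact_mod_cast h1
  have h3 : ‖P i k‖ ^ 2 ≤ 1 := by
    rw [h2]
    exact mul_le_one₀ (h.diag_le i) (h.diag_nonneg k) (h.diag_le k)
  nlinarith [norm_nonneg (P i k)]

theorem blowup_compact : IsCompact blowup := by
  apply Metric.isCompact_of_isClosed_isBounded blowup_closed
  rw [isBounded_iff_forall_norm_le]
  refine ⟨1, fun x hx => ?_⟩
  rw [Prod.norm_def]
  apply max_le
  · rw [pi_norm_le_iff_of_nonneg zero_le_one]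
    intro i
    rw [pi_norm_le_iff_of_nonneg zero_le_one]
    intro k
    exact hx.1.norm_le i k
  · rw [pi_norm_le_iff_of_nonneg zero_le_one]
    intro i
    rw [pi_norm_le_iff_of_nonneg zero_le_one]
    intro k
    exact hx.2.1.norm_le i k

instance : CompactSpace S := isCompact_iff_compactSpace.1 blowup_compact

/-- Projection matrix onto the line of a nonzero vector. -/
noncomputable def proj {m : ℕ} (Z : Fin m → ℂ) (i j : Fin m) : ℂ :=
  Z i * (starRingEnd ℂ) (Z j) / ((∑ k, ‖Z k‖ ^ 2 : ℝ) : ℂ)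

theorem sum_pos {m : ℕ} {Z : Fin m → ℂ} {k : Fin m} (h : Z k ≠ 0) : 0 < ∑ k, ‖Z k‖ ^ 2 := by
  have h1 : ‖Z k‖ ^ 2 ≤ ∑ k, ‖Z k‖ ^ 2 :=
    Finset.single_le_sum (f := fun k => ‖Z k‖ ^ 2) (fun i _ => sq_nonneg _) (Finset.mem_univ k)
  have h2 : 0 < ‖Z k‖ ^ 2 := by positivity
  linarith

theorem proj_isLine {m : ℕ} {Z : Fin m → ℂ} {k : Fin m} (h : Z k ≠ 0) : IsLine (proj Z) := by
  have hs := sum_pos h
  set N : ℝ := ∑ k, ‖Z k‖ ^ 2 with hN
  have hN0 : (N : ℂ) ≠ 0 := by exact_mod_cast hs.ne'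
  refine ⟨?_, ?_, ?_⟩
  · intro i j
    unfold proj
    rw [map_div₀, map_mul, Complex.conj_conj, Complex.conj_ofReal, mul_comm (Z j)]
  · unfold proj
    rw [← Finset.sum_div, div_eq_one_iff_eq hN0, hN, Complex.ofReal_sum]
    apply Finset.sum_congr rfl
    intro i _
    rw [Complex.mul_conj, Complex.normSq_eq_norm_sq]
  · intro i j k l
    unfold proj
    ring

/-- A projection matrix is determined by any column with nonzero diagonal entry. -/
theorem IsLine.eq_proj {m : ℕ} {P : Fin m → Fin m → ℂ} (h : IsLine P) {k : Fin m}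
    (hk : P k k ≠ 0) : P = proj (fun i => P i k / P k k) := by
  have hre := h.diag_re k
  have hre0 : (P k k).re ≠ 0 := by
    intro h0; apply hk; rw [← hre, h0]; simp
  have hsum : ((∑ i, ‖P i k / P k k‖ ^ 2 : ℝ) : ℂ) = 1 / P k k := by
    have h1 : ∀ i, ‖P i k / P k k‖ ^ 2 = ‖P i k‖ ^ 2 / ‖P k k‖ ^ 2 := by
      intro i; rw [norm_div, div_pow]
    simp_rw [h1]
    rw [← Finset.sum_div]
    have h2 := h.diag k
    have h3 : ‖P k k‖ ^ 2 = (P k k).re ^ 2 := by
      conv_lhs => rw [← hre]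
      rw [Complex.norm_real, Real.norm_eq_abs, sq_abs]
    have h4 : ∑ i, ‖P i k‖ ^ 2 = (P k k).re := by
      conv_rhs => rw [h2]
      rw [Complex.ofReal_re]
    rw [h3, h4, ← hre, Complex.ofReal_re]
    push_cast
    field_simp
  funext i j
  unfold proj
  rw [hsum, map_div₀]
  have h5 : (starRingEnd ℂ) (P k k) = P k k := (h.1 k k).symm
  have h6 : (starRingEnd ℂ) (P j k) = P k j := (h.1 j k).symm
  rw [h5, h6]
  have h7 := h.2.2 i j k k
  field_simp
  linear_combination h7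

theorem IsLine.sum_ratio {m : ℕ} {P : Fin m → Fin m → ℂ} (h : IsLine P) {k : Fin m}
    (hk : P k k ≠ 0) : ∑ i, ‖P i k / P k k‖ ^ 2 = 1 / (P k k).re := by
  have hre := h.diag_re k
  have hre0 : (P k k).re ≠ 0 := by
    intro h0; apply hk; rw [← hre, h0]; simp
  have h1 : ∀ i, ‖P i k / P k k‖ ^ 2 = ‖P i k‖ ^ 2 / ‖P k k‖ ^ 2 := by
    intro i; rw [norm_div, div_pow]
  simp_rw [h1]
  rw [← Finset.sum_div]
  have h2 := h.diag k
  have h3 : ‖P k k‖ ^ 2 = (P k k).re ^ 2 := by
    conv_lhs => rw [← hre]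
    rw [Complex.norm_real, Real.norm_eq_abs, sq_abs]
  have h4 : ∑ i, ‖P i k‖ ^ 2 = (P k k).re := by
    conv_rhs => rw [h2]
    rw [Complex.ofReal_re]
  rw [h3, h4]
  field_simp

theorem proj_ratio {m : ℕ} {Z : Fin m → ℂ} {k : Fin m} (h : Z k ≠ 0) (i : Fin m) :
    proj Z i k / proj Z k k = Z i / Z k := by
  have hs := sum_pos h
  have hN0 : ((∑ k, ‖Z k‖ ^ 2 : ℝ) : ℂ) ≠ 0 := by exact_mod_cast hs.ne'
  have hc : (starRingEnd ℂ) (Z k) ≠ 0 := by simpa using h
  unfold proj
  field_simp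

theorem proj_diag_ne {m : ℕ} {Z : Fin m → ℂ} {k : Fin m} (h : ∃ l, Z l ≠ 0) :
    proj Z k k ≠ 0 ↔ Z k ≠ 0 := by
  obtain ⟨l, hl⟩ := h
  have hs := sum_pos hl
  have hN0 : ((∑ k, ‖Z k‖ ^ 2 : ℝ) : ℂ) ≠ 0 := by exact_mod_cast hs.ne'
  unfold proj
  constructor
  · intro h1 h2; apply h1; rw [h2]; simp
  · intro h1
    have hc : (starRingEnd ℂ) (Z k) ≠ 0 := by simpa using h1
    exact div_ne_zero (mul_ne_zero h1 hc) hN0

theorem proj_diag_re {m : ℕ} (Z : Fin m → ℂ) (k : Fin m) :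
    (proj Z k k).re = ‖Z k‖ ^ 2 / ∑ k, ‖Z k‖ ^ 2 := by
  unfold proj
  rw [Complex.mul_conj, Complex.normSq_eq_norm_sq, ← Complex.ofReal_div, Complex.ofReal_re]

/-! ### The four charts -/

/-- Index set of the charts: (a, b), where a = false for the charts around the exceptional curve
(z_0 = 1) and a = true for the charts with z_{b+1} = 1; b selects the coordinate on the
exceptional curve. -/
abbrev Idx : Type := Bool × Fin 2

/-- the homogeneous coordinate of C^3 which is normalised to 1 -/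
def kk (i : Idx) : Fin 3 := if i.1 then i.2.succ else 0

/-- the homogeneous coordinate of C^3 which is the first coordinate of the chart -/
def ll (i : Idx) : Fin 3 := if i.1 then 0 else i.2.succ

/-- homogeneous coordinates (w_1, w_2) of the second factor -/
def W (b : Fin 2) (t : ℂ) (j : Fin 2) : ℂ := if j = b then 1 else t

/-- homogeneous coordinates (z_0, z_1, z_2) of the first factor -/
def Z (i : Idx) (z : Fin 2 → ℂ) : Fin 3 → ℂ :=
  Fin.cons (if i.1 then z 0 else 1) (fun j => (if i.1 then 1 else z 0) * W i.2 (z 1) j)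

theorem W_self (b : Fin 2) (t : ℂ) : W b t b = 1 := by simp [W]

theorem W_rev (b : Fin 2) (t : ℂ) : W b t b.rev = t := by
  fin_cases b <;> simp [W]

theorem Z_kk (i : Idx) (z : Fin 2 → ℂ) : Z i z (kk i) = 1 := by
  obtain ⟨a, b⟩ := i
  cases a <;> simp [Z, kk, W_self]

theorem Z_ll (i : Idx) (z : Fin 2 → ℂ) : Z i z (ll i) = z 0 := by
  obtain ⟨a, b⟩ := i
  cases a <;> simp [Z, ll, W_self]

theorem Z_succ (i : Idx) (z : Fin 2 → ℂ) (j : Fin 2) :
    Z i z j.succ = (if i.1 then 1 else z 0) * W i.2 (z 1) j := by simp [Z]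

theorem Z_zero (i : Idx) (z : Fin 2 → ℂ) : Z i z 0 = if i.1 then z 0 else 1 := by simp [Z]

theorem mem_blowup (i : Idx) (z : Fin 2 → ℂ) :
    ((proj (Z i z), proj (W i.2 (z 1))) : Amb) ∈ blowup := by
  refine ⟨proj_isLine (k := kk i) (by rw [Z_kk]; exact one_ne_zero),
    proj_isLine (k := i.2) (by rw [W_self]; exact one_ne_zero), ?_⟩
  intro j j' k l
  simp only [proj, Z_succ]
  ring

/-- coordinates of a point in the chart i -/
noncomputable def coord (i : Idx) (x : S) : Fin 2 → ℂ :=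
  ![x.1.1 (ll i) (kk i) / x.1.1 (kk i) (kk i), x.1.2 i.2.rev i.2 / x.1.2 i.2 i.2]

/-- the point with given coordinates in the chart i -/
noncomputable def param (i : Idx) (z : Fin 2 → ℂ) : S :=
  ⟨(proj (Z i z), proj (W i.2 (z 1))), mem_blowup i z⟩

/-- domain of the chart i -/
def dom (i : Idx) : Set S := {x | x.1.1 (kk i) (kk i) ≠ 0 ∧ x.1.2 i.2 i.2 ≠ 0}

theorem fin2_cases (b j : Fin 2) : j = b ∨ j = b.rev := by
  fin_cases b <;> fin_cases j <;> simp

theorem W_coord (i : Idx) (x : S) (hx : x ∈ dom i) :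
    W i.2 (coord i x 1) = fun j => x.1.2 j i.2 / x.1.2 i.2 i.2 := by
  funext j
  have h2 : x.1.2 i.2 i.2 ≠ 0 := hx.2
  rcases fin2_cases i.2 j with h | h
  · rw [h, W_self, div_self h2]
  · rw [h, W_rev]
    simp [coord]

theorem Z_coord (i : Idx) (x : S) (hx : x ∈ dom i) :
    Z i (coord i x) = fun j => x.1.1 j (kk i) / x.1.1 (kk i) (kk i) := by
  have h1 : x.1.1 (kk i) (kk i) ≠ 0 := hx.1
  have h2 : x.1.2 i.2 i.2 ≠ 0 := hx.2
  have hW := W_coord i x hx
  have hPQ := x.2.2.2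
  funext j
  refine Fin.cases ?_ (fun j' => ?_) j
  · rw [Z_zero]
    obtain ⟨a, b⟩ := i
    cases a
    · simp only [kk, Bool.false_eq_true, if_false] at h1 ⊢
      rw [div_self h1]
    · simp [coord, kk, ll]
  · rw [Z_succ, hW]
    obtain ⟨a, b⟩ := i
    simp only at h2
    have h3 := hPQ b j'
    cases a
    · simp only [kk, Bool.false_eq_true, if_false] at h1 ⊢
      simp only [coord, kk, ll, Bool.false_eq_true, if_false, Matrix.cons_val_zero]
      have h4 := h3 0 b
      field_simp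
      linear_combination h4
    · simp only [kk, if_true] at h1 ⊢
      have h4 := h3 b.succ b
      field_simp
      linear_combination h4

theorem param_coord (i : Idx) (x : S) (hx : x ∈ dom i) : param i (coord i x) = x := by
  apply Subtype.ext
  have h1 := x.2.1.eq_proj hx.1
  have h2 := x.2.2.1.eq_proj hx.2
  unfold param
  simp only
  rw [Z_coord i x hx, W_coord i x hx, ← h1, ← h2]

theorem coord_param (i : Idx) (z : Fin 2 → ℂ) : coord i (param i z) = z := by
  have hk : Z i z (kk i) ≠ 0 := by rw [Z_kk]; exact one_ne_zero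
  have hb : W i.2 (z 1) i.2 ≠ 0 := by rw [W_self]; exact one_ne_zero
  funext j
  fin_cases j
  · simp only [coord, param, Fin.zero_eta, Matrix.cons_val_zero]
    rw [proj_ratio hk, Z_kk, Z_ll, div_one]
  · simp only [coord, param, Fin.mk_one, Matrix.cons_val_one, Matrix.cons_val_zero]
    rw [proj_ratio hb, W_self, W_rev, div_one]

theorem Z_ne (i : Idx) (z : Fin 2 → ℂ) : ∃ l, Z i z l ≠ 0 :=
  ⟨kk i, by rw [Z_kk]; exact one_ne_zero⟩

theorem W_ne (b : Fin 2) (t : ℂ) : ∃ l, W b t l ≠ 0 :=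
  ⟨b, by rw [W_self]; exact one_ne_zero⟩

theorem param_mem_dom (i j : Idx) (z : Fin 2 → ℂ) :
    param i z ∈ dom j ↔ Z i z (kk j) ≠ 0 ∧ W i.2 (z 1) j.2 ≠ 0 := by
  show (proj (Z i z) (kk j) (kk j) ≠ 0 ∧ proj (W i.2 (z 1)) j.2 j.2 ≠ 0) ↔ _
  rw [proj_diag_ne (Z_ne i z), proj_diag_ne (W_ne i.2 (z 1))]

theorem param_mem_dom_self (i : Idx) (z : Fin 2 → ℂ) : param i z ∈ dom i := by
  rw [param_mem_dom, Z_kk, W_self]
  exact ⟨one_ne_zero, one_ne_zero⟩

theorem dom_open (i : Idx) : IsOpen (dom i) := by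
  apply IsOpen.inter
  · exact isOpen_ne_fun (by fun_prop) continuous_const
  · exact isOpen_ne_fun (by fun_prop) continuous_const

theorem coord_continuousOn (i : Idx) : ContinuousOn (coord i) (dom i) := by
  apply continuousOn_pi.2
  intro j
  fin_cases j
  · simp only [coord, Fin.zero_eta, Matrix.cons_val_zero]
    apply ContinuousOn.div
    · exact Continuous.continuousOn (by fun_prop)
    · exact Continuous.continuousOn (by fun_prop)
    · intro x hx; exact hx.1
  · simp only [coord, Fin.mk_one, Matrix.cons_val_one, Matrix.cons_val_zero]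
    apply ContinuousOn.div
    · exact Continuous.continuousOn (by fun_prop)
    · exact Continuous.continuousOn (by fun_prop)
    · intro x hx; exact hx.2

theorem W_continuous (b j : Fin 2) : Continuous (fun t : ℂ => W b t j) := by
  unfold W
  by_cases h : j = b
  · simp [h, continuous_const]
  · simp only [h, if_false]; exact continuous_id

theorem Z_continuous (i : Idx) (j : Fin 3) : Continuous (fun z : Fin 2 → ℂ => Z i z j) := by
  refine Fin.cases ?_ (fun j' => ?_) j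
  · simp only [Z_zero]
    by_cases h : i.1 <;> simp only [h] <;> simp <;> fun_prop
  · simp only [Z_succ]
    have h1 : Continuous (fun z : Fin 2 → ℂ => W i.2 (z 1) j') :=
      (W_continuous i.2 j').comp (continuous_apply 1)
    by_cases h : i.1 <;> simp only [h] <;> simp <;> fun_prop

theorem proj_continuous {α : Type*} [TopologicalSpace α] {m : ℕ} (Z : α → Fin m → ℂ)
    (hZ : ∀ j, Continuous (fun z => Z z j)) (hne : ∀ z, ∃ l, Z z l ≠ 0) :
    Continuous (fun z => proj (Z z)) := by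
  apply continuous_pi
  intro i
  apply continuous_pi
  intro j
  unfold proj
  apply Continuous.div
  · exact (hZ i).mul (Complex.continuous_conj.comp (hZ j))
  · apply Complex.continuous_ofReal.comp
    apply continuous_finsetSum
    intro k _
    exact (hZ k).norm.pow 2
  · intro z
    obtain ⟨l, hl⟩ := hne z
    exact_mod_cast (sum_pos hl).ne'

theorem param_continuous (i : Idx) : Continuous (param i) := by
  apply Continuous.subtype_mk
  apply Continuous.prodMk
  · exact proj_continuous (fun z => Z i z) (Z_continuous i) (Z_ne i)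
  · exact proj_continuous (fun z : Fin 2 → ℂ => W i.2 (z 1))
      (fun j => (W_continuous i.2 j).comp (continuous_apply 1)) (fun z => W_ne i.2 (z 1))

/-- the chart i, a homeomorphism of an open set of the surface onto C^2 -/
noncomputable def chartS (i : Idx) : OpenPartialHomeomorph S (Fin 2 → ℂ) where
  toFun := coord i
  invFun := param i
  source := dom i
  target := univ
  map_source' := fun _ _ => mem_univ _
  map_target' := fun z _ => param_mem_dom_self i z
  left_inv' := fun x hx => param_coord i x hx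
  right_inv' := fun z _ => coord_param i z
  open_source := dom_open i
  open_target := isOpen_univ
  continuousOn_toFun := coord_continuousOn i
  continuousOn_invFun := (param_continuous i).continuousOn

theorem coordinates_cover (x : S) : ∃ i, x ∈ dom i := by
  obtain ⟨⟨P, Q⟩, hP, hQ, hPQ⟩ := x
  replace hP : IsLine P := hP
  replace hQ : IsLine Q := hQ
  replace hPQ : ∀ (i j : Fin 2) (k : Fin 3) (l : Fin 2),
    P i.succ k * Q j l = P j.succ k * Q i l := hPQ
  obtain ⟨b, hb⟩ : ∃ b, Q b b ≠ 0 := by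
    by_contra hcon
    push Not at hcon
    have := hQ.2.1
    rw [Finset.sum_eq_zero (fun i _ => hcon i)] at this
    exact zero_ne_one this
  by_cases h0 : P 0 0 = 0
  · -- then P b.succ b.succ ≠ 0
    refine ⟨(true, b), ?_, hb⟩
    simp only [kk, if_true]
    intro h1
    -- column b.succ of P vanishes, hence also the other column
    have hcol : ∀ k, P b.succ k = 0 := by
      intro k
      have h2 := hP.sq b.succ k
      rw [h1, zero_mul] at h2
      have h3 : ‖P b.succ k‖ ^ 2 = 0 := by exact_mod_cast h2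
      simpa using h3
    have hcol2 : ∀ k, P b.rev.succ k = 0 := by
      intro k
      have h2 := hPQ b b.rev k b
      rw [hcol k, zero_mul] at h2
      have h3 := h2.symm
      rcases mul_eq_zero.1 h3 with h4 | h4
      · exact h4
      · exact absurd h4 hb
    have hsum := hP.2.1
    rw [Fin.sum_univ_succ, h0, zero_add] at hsum
    have : ∑ i : Fin 2, P i.succ i.succ = 0 := by
      apply Finset.sum_eq_zero
      intro i _
      rcases fin2_cases b i with h | h
      · rw [h]; exact h1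
      · rw [h]; exact hcol2 _
    rw [this] at hsum
    exact zero_ne_one hsum
  · exact ⟨(false, b), h0, hb⟩

/-! ### The atlas -/

theorem coord_param0 (i j : Idx) (z : Fin 2 → ℂ) (h : param i z ∈ dom j) :
    coord j (param i z) 0 = Z i z (ll j) / Z i z (kk j) := by
  rw [param_mem_dom] at h
  simp only [coord, param, Matrix.cons_val_zero]
  rw [proj_ratio h.1]

theorem coord_param1 (i j : Idx) (z : Fin 2 → ℂ) (h : param i z ∈ dom j) :
    coord j (param i z) 1 = W i.2 (z 1) j.2.rev / W i.2 (z 1) j.2 := by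
  rw [param_mem_dom] at h
  simp only [coord, param, Matrix.cons_val_one, Matrix.cons_val_zero]
  rw [proj_ratio h.2]

theorem W_differentiable (b j : Fin 2) : Differentiable ℂ (fun t : ℂ => W b t j) := by
  unfold W
  by_cases h : j = b
  · simp [h]
  · simp only [h, if_false]; exact differentiable_id

theorem W1_differentiable (b j : Fin 2) : Differentiable ℂ (fun z : Fin 2 → ℂ => W b (z 1) j) :=
  (W_differentiable b j).comp (differentiable_apply 1)

theorem Z_differentiable (i : Idx) (j : Fin 3) : Differentiable ℂ (fun z : Fin 2 → ℂ => Z i z j) := by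
  refine Fin.cases ?_ (fun j' => ?_) j
  · simp only [Z_zero]
    by_cases h : i.1
    · simp only [h, if_true]; fun_prop
    · simp only [h, if_false, Bool.false_eq_true]; fun_prop
  · simp only [Z_succ]
    have h1 := W1_differentiable i.2 j'
    by_cases h : i.1
    · simp only [h, if_true, one_mul]; exact h1
    · simp only [h, if_false, Bool.false_eq_true]; fun_prop

/-- the holomorphic atlas of the surface -/
noncomputable def atlasS : HolAtlas S 2 where
  ι := Idx
  chart := chartS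
  cover := coordinates_cover
  holo := by
    intro i j
    have hsrc : ∀ z ∈ {z | z ∈ (chartS i).target ∧ (chartS i).symm z ∈ (chartS j).source},
        param i z ∈ dom j := fun z hz => hz.2
    apply differentiableOn_pi.2
    intro l
    fin_cases l
    · have h1 : DifferentiableOn ℂ (fun z => Z i z (ll j) / Z i z (kk j))
          {z | z ∈ (chartS i).target ∧ (chartS i).symm z ∈ (chartS j).source} :=
        fun z hz => by
          have h2 := (Z_differentiable i (ll j) z).fun_mul ((Z_differentiable i (kk j) z).fun_inv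
            ((param_mem_dom i j z).1 (hsrc z hz)).1)
          exact h2.differentiableWithinAt
      exact h1.congr fun z hz => coord_param0 i j z (hsrc z hz)
    · have h1 : DifferentiableOn ℂ (fun z : Fin 2 → ℂ => W i.2 (z 1) j.2.rev / W i.2 (z 1) j.2)
          {z | z ∈ (chartS i).target ∧ (chartS i).symm z ∈ (chartS j).source} :=
        fun z hz => by
          have h2 := (W1_differentiable i.2 j.2.rev z).fun_mul
            ((W1_differentiable i.2 j.2 z).fun_inv ((param_mem_dom i j z).1 (hsrc z hz)).2)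
          exact h2.differentiableWithinAt
      exact h1.congr fun z hz => coord_param1 i j z (hsrc z hz)

theorem dom_eq_range (i : Idx) : dom i = range (param i) := by
  ext x
  constructor
  · intro hx; exact ⟨coord i x, param_coord i x hx⟩
  · rintro ⟨z, rfl⟩; exact param_mem_dom_self i z

/-- a point in all the charts -/
noncomputable def basePt : S := param (false, 0) ![1, 1]

theorem basePt_mem (i : Idx) : basePt ∈ dom i := by
  unfold basePt
  rw [param_mem_dom]
  obtain ⟨a, b⟩ := i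
  refine ⟨?_, ?_⟩
  · cases a
    · simp [kk, Z_zero]
    · simp only [kk, if_true, Z_succ]
      fin_cases b <;> simp [W]
  · fin_cases b <;> simp [W]

instance : ConnectedSpace S := by
  have h1 : IsPreconnected (⋃ i, dom i) := by
    apply isPreconnected_iUnion
    · exact ⟨basePt, mem_iInter.2 basePt_mem⟩
    · intro i
      rw [dom_eq_range]
      exact isPreconnected_range (param_continuous i)
  have h2 : (⋃ i, dom i) = univ := by
    apply eq_univ_of_forall
    intro x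
    obtain ⟨i, hi⟩ := coordinates_cover x
    exact mem_iUnion.2 ⟨i, hi⟩
  rw [h2] at h1
  exact { isPreconnected_univ := h1, toNonempty := ⟨basePt⟩ }

/-! ### The forms -/

/-- potentials of the pull-back of the Fubini-Study form of the plane -/
noncomputable def potT (i : Idx) (z : Cn 2) : ℝ := Real.log (∑ l, ‖Z i z l‖ ^ 2)

/-- potentials of the pull-back of the Fubini-Study form of the line -/
noncomputable def potE (i : Idx) (z : Cn 2) : ℝ := Real.log (∑ l, ‖W i.2 (z 1) l‖ ^ 2)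

theorem sum_W (b : Fin 2) (t : ℂ) : ∑ l, ‖W b t l‖ ^ 2 = 1 + ‖t‖ ^ 2 := by
  rw [Fin.sum_univ_two]
  fin_cases b <;> simp [W, add_comm]

theorem sum_Z (i : Idx) (z : Cn 2) : ∑ l, ‖Z i z l‖ ^ 2 =
    if i.1 then ‖z 0‖ ^ 2 + (1 + ‖z 1‖ ^ 2) else 1 + ‖z 0‖ ^ 2 * (1 + ‖z 1‖ ^ 2) := by
  have h : ∑ l : Fin 2, ‖Z i z l.succ‖ ^ 2 = ‖(if i.1 then (1 : ℂ) else z 0)‖ ^ 2 *
      (1 + ‖z 1‖ ^ 2) := by
    rw [← sum_W i.2, Finset.mul_sum]
    apply Finset.sum_congr rfl
    intro l _
    rw [Z_succ, norm_mul, mul_pow]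
  rw [Fin.sum_univ_succ, h, Z_zero]
  obtain ⟨a, b⟩ := i
  cases a <;> simp

theorem potE_eq (i : Idx) : potE i = fun z : Cn 2 => Real.log (1 + ‖z 1‖ ^ 2) := by
  funext z; unfold potE; rw [sum_W]

theorem potT_eq0 (b : Fin 2) :
    potT (false, b) = fun z : Cn 2 => Real.log (1 + ‖z 0‖ ^ 2 * (1 + ‖z 1‖ ^ 2)) := by
  funext z; unfold potT; rw [sum_Z]; simp

theorem potT_eq1 (b : Fin 2) :
    potT (true, b) = fun z : Cn 2 => Real.log (‖z 0‖ ^ 2 + (1 + ‖z 1‖ ^ 2)) := by
  funext z; unfold potT; rw [sum_Z]; simp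

theorem nsq_contDiff {k : WithTop ℕ∞} (j : Fin 2) : ContDiff ℝ k (fun z : Cn 2 => ‖z j‖ ^ 2) :=
  (contDiff_norm_sq ℝ).comp (contDiff_apply ℝ ℂ j)

theorem potE_contDiff {k : WithTop ℕ∞} (i : Idx) : ContDiff ℝ k (potE i) := by
  rw [potE_eq]
  exact (contDiff_const.add (nsq_contDiff 1)).log (fun z => by positivity)

theorem potT_contDiff {k : WithTop ℕ∞} (i : Idx) : ContDiff ℝ k (potT i) := by
  obtain ⟨a, b⟩ := i
  cases a
  · rw [potT_eq0]
    exact (contDiff_const.add ((nsq_contDiff 0).mul (contDiff_const.add (nsq_contDiff 1)))).log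
      (fun z => by positivity)
  · rw [potT_eq1]
    exact ((nsq_contDiff 0).add (contDiff_const.add (nsq_contDiff 1))).log
      (fun z => by positivity)

theorem potT_coord (j : Idx) (x : S) (hx : x ∈ dom j) :
    potT j (coord j x) = - Real.log (x.1.1 (kk j) (kk j)).re := by
  unfold potT
  rw [Z_coord j x hx]
  simp only
  rw [x.2.1.sum_ratio hx.1, one_div, Real.log_inv]

theorem potE_coord (j : Idx) (x : S) (hx : x ∈ dom j) :
    potE j (coord j x) = - Real.log (x.1.2 j.2 j.2).re := by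
  unfold potE
  rw [W_coord j x hx]
  simp only
  rw [x.2.2.1.sum_ratio hx.2, one_div, Real.log_inv]

theorem potT_diff (i j : Idx) (y : Cn 2) (hy : param i y ∈ dom j) :
    potT i y - potT j (coord j (param i y)) = Real.log (‖Z i y (kk j)‖ ^ 2) := by
  have hne := (param_mem_dom i j y).1 hy
  rw [potT_coord j _ hy]
  have h1 : ((param i y).1.1 (kk j) (kk j)).re = ‖Z i y (kk j)‖ ^ 2 / ∑ l, ‖Z i y l‖ ^ 2 :=
    proj_diag_re _ _
  rw [h1]
  have hpos := sum_pos hne.1
  have hk : 0 < ‖Z i y (kk j)‖ := norm_pos_iff.2 hne.1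
  rw [Real.log_div (by positivity) hpos.ne']
  unfold potT
  ring

theorem potE_diff (i j : Idx) (y : Cn 2) (hy : param i y ∈ dom j) :
    potE i y - potE j (coord j (param i y)) = Real.log (‖W i.2 (y 1) j.2‖ ^ 2) := by
  have hne := (param_mem_dom i j y).1 hy
  rw [potE_coord j _ hy]
  have h1 : ((param i y).1.2 j.2 j.2).re = ‖W i.2 (y 1) j.2‖ ^ 2 / ∑ l, ‖W i.2 (y 1) l‖ ^ 2 :=
    proj_diag_re _ _
  rw [h1]
  have hpos := sum_pos hne.2
  have hk : 0 < ‖W i.2 (y 1) j.2‖ := norm_pos_iff.2 hne.2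
  rw [Real.log_div (by positivity) hpos.ne']
  unfold potE
  ring

theorem hessian_const (c : ℝ) (z : Cn 2) : complexHessian (fun _ : Cn 2 => c) z = 0 := by
  have h : fderiv ℝ (fun _ : Cn 2 => c) = fun _ => 0 := by
    funext y; exact fderiv_const_apply c
  ext j l
  unfold complexHessian hess
  rw [h]
  simp

theorem log_nsq_contDiffAt {k : WithTop ℕ∞} (j : Fin 2) (z : Cn 2) (hz : z j ≠ 0) :
    ContDiffAt ℝ k (fun z : Cn 2 => Real.log (‖z j‖ ^ 2)) z :=
  (nsq_contDiff j).contDiffAt.log (by positivity)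

theorem overlap_eventually (i j : Idx) (z : Cn 2) (hz : param i z ∈ dom j) :
    ∀ᶠ y in 𝓝 z, param i y ∈ dom j :=
  (param_continuous i).continuousAt.eventually ((dom_open j).mem_nhds hz)

/-- log‖W‖² is smooth and pluriharmonic where W ≠ 0 -/
theorem hessian_logW (b j : Fin 2) (z : Cn 2) (hz : W b (z 1) j ≠ 0) :
    ContDiffAt ℝ 2 (fun y : Cn 2 => Real.log (‖W b (y 1) j‖ ^ 2)) z ∧
      complexHessian (fun y : Cn 2 => Real.log (‖W b (y 1) j‖ ^ 2)) z = 0 := by
  unfold W at hz ⊢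
  by_cases h : j = b
  · simp only [h, if_true]
    exact ⟨contDiffAt_const, hessian_const _ _⟩
  · simp only [h, if_false] at hz ⊢
    exact ⟨log_nsq_contDiffAt 1 z hz, hessian_log1 z hz⟩

/-- log‖Z‖² is smooth and pluriharmonic where Z ≠ 0 -/
theorem hessian_logZ (i : Idx) (k : Fin 3) (z : Cn 2) (hz : Z i z k ≠ 0) :
    ContDiffAt ℝ 2 (fun y : Cn 2 => Real.log (‖Z i y k‖ ^ 2)) z ∧
      complexHessian (fun y : Cn 2 => Real.log (‖Z i y k‖ ^ 2)) z = 0 := by
  obtain ⟨a, b⟩ := i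
  revert hz
  refine Fin.cases ?_ (fun k' => ?_) k
  · intro hz
    cases a
    · simp only [Z_zero, Bool.false_eq_true, if_false]
      exact ⟨contDiffAt_const, hessian_const _ _⟩
    · simp only [Z_zero, if_true] at hz ⊢
      exact ⟨log_nsq_contDiffAt 0 z hz, hessian_log0 z hz⟩
  · intro hz
    cases a
    · simp only [Z_succ, Bool.false_eq_true, if_false] at hz ⊢
      have h0 : z 0 ≠ 0 := left_ne_zero_of_mul hz
      have hW : W b (z 1) k' ≠ 0 := right_ne_zero_of_mul hz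
      obtain ⟨c1, c2⟩ := hessian_logW b k' z hW
      have hev : (fun y : Cn 2 => Real.log (‖y 0 * W b (y 1) k'‖ ^ 2)) =ᶠ[𝓝 z] fun y =>
          Real.log (‖y 0‖ ^ 2) + Real.log (‖W b (y 1) k'‖ ^ 2) := by
        have e1 : ∀ᶠ y : Cn 2 in 𝓝 z, y 0 ≠ 0 :=
          (continuous_apply (0 : Fin 2)).continuousAt.eventually_ne h0
        have e2 : ∀ᶠ y : Cn 2 in 𝓝 z, W b (y 1) k' ≠ 0 :=
          ((W_continuous b k').comp (continuous_apply (1 : Fin 2))).continuousAt.eventually_ne hW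
        filter_upwards [e1, e2] with y h1 h2
        rw [norm_mul, mul_pow, Real.log_mul (by positivity) (by positivity)]
      refine ⟨?_, ?_⟩
      · exact ((log_nsq_contDiffAt 0 z h0).add c1).congr_of_eventuallyEq hev
      · rw [complexHessian_congr hev, complexHessian_add (log_nsq_contDiffAt 0 z h0) c1, c2,
          hessian_log0 z h0, add_zero]
    · simp only [Z_succ, if_true, one_mul] at hz ⊢
      exact hessian_logW b k' z hz

/-- θ: the pull-back of the Fubini-Study form of the projective plane -/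
noncomputable def thetaS : ClosedForm atlasS where
  pot := potT
  smooth := fun i => (potT_contDiff i).contDiffOn
  compat := by
    intro i j z _ hz
    have hz' : param i z ∈ dom j := hz
    have hev : (fun y => potT i y - potT j (coord j (param i y))) =ᶠ[𝓝 z] fun y =>
        Real.log (‖Z i y (kk j)‖ ^ 2) := by
      filter_upwards [overlap_eventually i j z hz'] with y hy
      exact potT_diff i j y hy
    have := (hessian_logZ i (kk j) z ((param_mem_dom i j z).1 hz').1).2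
    rw [← complexHessian_congr hev] at this
    exact this

/-- κ: the sum of the pull-backs of the Fubini-Study forms of the plane and the line -/
noncomputable def kappaS : ClosedForm atlasS where
  pot := fun i z => potT i z + potE i z
  smooth := fun i => ((potT_contDiff i).add (potE_contDiff i)).contDiffOn
  compat := by
    intro i j z _ hz
    have hz' : param i z ∈ dom j := hz
    have hne := (param_mem_dom i j z).1 hz'
    have hev : (fun y => potT i y + potE i y - (potT j (coord j (param i y)) +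
        potE j (coord j (param i y)))) =ᶠ[𝓝 z] fun y =>
        Real.log (‖Z i y (kk j)‖ ^ 2) + Real.log (‖W i.2 (y 1) j.2‖ ^ 2) := by
      filter_upwards [overlap_eventually i j z hz'] with y hy
      rw [← potT_diff i j y hy, ← potE_diff i j y hy]; ring
    obtain ⟨c1, c2⟩ := hessian_logZ i (kk j) z hne.1
    obtain ⟨d1, d2⟩ := hessian_logW i.2 j.2 z hne.2
    have h1 : complexHessian (fun y => Real.log (‖Z i y (kk j)‖ ^ 2) +
        Real.log (‖W i.2 (y 1) j.2‖ ^ 2)) z = 0 := by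
      rw [complexHessian_add c1 d1, c2, d2, add_zero]
    rw [← complexHessian_congr hev] at h1
    exact h1

/-! ### Positivity of the forms -/

/-- matrices of the special form met below -/
noncomputable def frm (p c q : ℝ) (z : Cn 2) : Matrix (Fin 2) (Fin 2) ℂ :=
  !![(p : ℂ), (c : ℂ) * ((starRingEnd ℂ) (z 0) * z 1);
    (c : ℂ) * ((starRingEnd ℂ) (z 1) * z 0), (q : ℂ)]

theorem frm_herm (p c q : ℝ) (z : Cn 2) : (frm p c q z).IsHermitian := by
  apply Matrix.IsHermitian.ext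
  intro j l
  unfold frm
  fin_cases j <;> fin_cases l <;> simp [mul_comm]

theorem frm_det (p c q : ℝ) (z : Cn 2) :
    (frm p c q z).det = ((p * q - c ^ 2 * (‖z 0‖ ^ 2 * ‖z 1‖ ^ 2) : ℝ) : ℂ) := by
  unfold frm
  rw [Matrix.det_fin_two_of]
  have h0 : (starRingEnd ℂ) (z 0) * z 0 = ((‖z 0‖ ^ 2 : ℝ) : ℂ) := by
    rw [← Complex.normSq_eq_norm_sq, Complex.normSq_eq_conj_mul_self]
  have h1 : (starRingEnd ℂ) (z 1) * z 1 = ((‖z 1‖ ^ 2 : ℝ) : ℂ) := by
    rw [← Complex.normSq_eq_norm_sq, Complex.normSq_eq_conj_mul_self]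
  have h2 : (c : ℂ) * ((starRingEnd ℂ) (z 0) * z 1) * ((c : ℂ) * ((starRingEnd ℂ) (z 1) * z 0)) =
      (c : ℂ) ^ 2 * (((starRingEnd ℂ) (z 0) * z 0) * ((starRingEnd ℂ) (z 1) * z 1)) := by ring
  rw [h2, h0, h1]
  push_cast
  ring

theorem frm_psd {p c q : ℝ} {z : Cn 2} (hp : 0 ≤ p) (hq : 0 ≤ q)
    (hd : 0 ≤ p * q - c ^ 2 * (‖z 0‖ ^ 2 * ‖z 1‖ ^ 2)) : (frm p c q z).PosSemidef := by
  apply psd_iff2 (frm_herm p c q z)
  · simpa [frm] using hp
  · simpa [frm] using hq
  · rw [frm_det, Complex.ofReal_re]; exact hd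

theorem theta0_eq (b' : Fin 2) (z : Cn 2) {a b D : ℝ} (ha : a = ‖z 0‖ ^ 2) (hb : b = ‖z 1‖ ^ 2)
    (hD : D = 1 + a * (1 + b)) : complexHessian (potT (false, b')) z =
      frm ((1 + b) / D ^ 2) (1 / D ^ 2) (a * (1 + a) / D ^ 2) z := by
  rw [potT_eq0, hessian_T0 z ha hb hD]; rfl

theorem theta1_eq (b' : Fin 2) (z : Cn 2) {a b D : ℝ} (ha : a = ‖z 0‖ ^ 2) (hb : b = ‖z 1‖ ^ 2)
    (hD : D = a + (1 + b)) : complexHessian (potT (true, b')) z =
      frm ((1 + b) / D ^ 2) (-1 / D ^ 2) ((1 + a) / D ^ 2) z := by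
  rw [potT_eq1, hessian_T1 z ha hb hD]; rfl

theorem kappa_eq_add (i : Idx) (z : Cn 2) : complexHessian (fun z => potT i z + potE i z) z =
    complexHessian (potT i) z + complexHessian (potE i) z :=
  complexHessian_add (potT_contDiff i).contDiffAt (potE_contDiff i).contDiffAt

theorem add_E (i : Idx) (z : Cn 2) {b : ℝ} (hb : b = ‖z 1‖ ^ 2) (p c q : ℝ) :
    frm p c q z + complexHessian (potE i) z = frm p c (q + 1 / (1 + b) ^ 2) z := by
  rw [potE_eq, hessian_E z hb]
  unfold frm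
  ext j l
  fin_cases j <;> fin_cases l <;> simp

theorem theta_psd (i : Idx) (z : Cn 2) : (complexHessian (potT i) z).PosSemidef := by
  obtain ⟨a', b'⟩ := i
  obtain ⟨a, ha⟩ : ∃ a : ℝ, a = ‖z 0‖ ^ 2 := ⟨_, rfl⟩
  obtain ⟨b, hb⟩ : ∃ b : ℝ, b = ‖z 1‖ ^ 2 := ⟨_, rfl⟩
  have ha0 : 0 ≤ a := by rw [ha]; positivity
  have hb0 : 0 ≤ b := by rw [hb]; positivity
  cases a'
  · obtain ⟨D, hD⟩ : ∃ D : ℝ, D = 1 + a * (1 + b) := ⟨_, rfl⟩
    have hD0 : 0 < D := by rw [hD]; positivity
    rw [theta0_eq b' z ha hb hD]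
    apply frm_psd
    · positivity
    · positivity
    · rw [← ha, ← hb]
      have : (1 + b) / D ^ 2 * (a * (1 + a) / D ^ 2) - (1 / D ^ 2) ^ 2 * (a * b) = a / D ^ 3 := by
        field_simp; rw [hD]; ring
      rw [this]; positivity
  · obtain ⟨D, hD⟩ : ∃ D : ℝ, D = a + (1 + b) := ⟨_, rfl⟩
    have hD0 : 0 < D := by rw [hD]; positivity
    rw [theta1_eq b' z ha hb hD]
    apply frm_psd
    · positivity
    · positivity
    · rw [← ha, ← hb]
      have : (1 + b) / D ^ 2 * ((1 + a) / D ^ 2) - (-1 / D ^ 2) ^ 2 * (a * b) = 1 / D ^ 3 := by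
        field_simp; rw [hD]; ring
      rw [this]; positivity

theorem eta_psd (i : Idx) (z : Cn 2) : (complexHessian (potE i) z).PosSemidef := by
  have hb0 : 0 ≤ ‖z 1‖ ^ 2 := by positivity
  have h := add_E i z (b := ‖z 1‖ ^ 2) rfl 0 0 0
  have h0 : frm 0 0 0 z = 0 := by
    unfold frm; ext j l; fin_cases j <;> fin_cases l <;> simp
  rw [h0, zero_add] at h
  rw [h]
  apply frm_psd
  · exact le_refl _
  · positivity
  · simp

/-- determinant of the Kähler form in the charts around the exceptional curve -/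
theorem kappa0_det (b' : Fin 2) (z : Cn 2) {a b D : ℝ} (ha : a = ‖z 0‖ ^ 2) (hb : b = ‖z 1‖ ^ 2)
    (hD : D = 1 + a * (1 + b)) :
    (complexHessian (fun z => potT (false, b') z + potE (false, b') z) z).det =
      ((a / D ^ 3 + 1 / ((1 + b) * D ^ 2) : ℝ) : ℂ) := by
  have ha0 : 0 ≤ a := by rw [ha]; positivity
  have hb0 : 0 ≤ b := by rw [hb]; positivity
  have hD0 : 0 < D := by rw [hD]; positivity
  rw [kappa_eq_add, theta0_eq b' z ha hb hD, add_E _ z hb, frm_det, ← ha, ← hb]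
  congr 1
  field_simp
  rw [hD]; ring

theorem kappa1_det (b' : Fin 2) (z : Cn 2) {a b D : ℝ} (ha : a = ‖z 0‖ ^ 2) (hb : b = ‖z 1‖ ^ 2)
    (hD : D = a + (1 + b)) :
    (complexHessian (fun z => potT (true, b') z + potE (true, b') z) z).det =
      ((1 / D ^ 3 + 1 / ((1 + b) * D ^ 2) : ℝ) : ℂ) := by
  have ha0 : 0 ≤ a := by rw [ha]; positivity
  have hb0 : 0 ≤ b := by rw [hb]; positivity
  have hD0 : 0 < D := by rw [hD]; positivity
  rw [kappa_eq_add, theta1_eq b' z ha hb hD, add_E _ z hb, frm_det, ← ha, ← hb]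
  congr 1
  field_simp
  rw [hD]; ring

theorem kappa_psd (i : Idx) (z : Cn 2) :
    (complexHessian (fun z => potT i z + potE i z) z).PosSemidef := by
  rw [kappa_eq_add]; exact (theta_psd i z).add (eta_psd i z)

theorem kappa_det_pos (i : Idx) (z : Cn 2) :
    0 < (complexHessian (fun z => potT i z + potE i z) z).det.re := by
  obtain ⟨a', b'⟩ := i
  obtain ⟨a, ha⟩ : ∃ a : ℝ, a = ‖z 0‖ ^ 2 := ⟨_, rfl⟩
  obtain ⟨b, hb⟩ : ∃ b : ℝ, b = ‖z 1‖ ^ 2 := ⟨_, rfl⟩
  have ha0 : 0 ≤ a := by rw [ha]; positivity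
  have hb0 : 0 ≤ b := by rw [hb]; positivity
  cases a'
  · obtain ⟨D, hD⟩ : ∃ D : ℝ, D = 1 + a * (1 + b) := ⟨_, rfl⟩
    have hD0 : 0 < D := by rw [hD]; positivity
    rw [kappa0_det b' z ha hb hD, Complex.ofReal_re]; positivity
  · obtain ⟨D, hD⟩ : ∃ D : ℝ, D = a + (1 + b) := ⟨_, rfl⟩
    have hD0 : 0 < D := by rw [hD]; positivity
    rw [kappa1_det b' z ha hb hD, Complex.ofReal_re]; positivity

theorem kappa_pd (i : Idx) (z : Cn 2) :
    (complexHessian (fun z => potT i z + potE i z) z).PosDef := by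
  apply pd_of_det (kappa_psd i z)
  intro h0
  have := kappa_det_pos i z
  rw [h0] at this
  simp at this

theorem theta_det_le (i : Idx) (z : Cn 2) : (complexHessian (potT i) z).det.re ≤
    (complexHessian (fun z => potT i z + potE i z) z).det.re := by
  rw [kappa_eq_add]; exact det_mono (theta_psd i z) (eta_psd i z)

/-! ### The subsolution -/

/-- the local potential of θ + dd^c g -/
noncomputable def UU (i : Idx) (z : Cn 2) : ℝ :=
  if i.1 then 2 * Real.log (Real.sqrt (‖z 0‖ ^ 2) + Real.sqrt (1 + ‖z 1‖ ^ 2))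
  else 2 * Real.log (1 + Real.sqrt (‖z 0‖ ^ 2 * (1 + ‖z 1‖ ^ 2)))

theorem poly_ineq (x y : ℝ) (hx : 0 ≤ x) (hy : 0 ≤ y) :
    (2 * y ^ 2 + x ^ 2) * (x * (x + y) ^ 3) ≤ 6 * (x ^ 2 + y ^ 2) ^ 3 := by
  have h1 : (x + y) ^ 2 ≤ 2 * (x ^ 2 + y ^ 2) := by nlinarith [sq_nonneg (x - y)]
  have h2 : x * (x + y) ≤ 3 / 2 * (x ^ 2 + y ^ 2) := by nlinarith [sq_nonneg (x - y)]
  have h3 : 2 * y ^ 2 + x ^ 2 ≤ 2 * (x ^ 2 + y ^ 2) := by nlinarith [sq_nonneg x]
  have h4 : x * (x + y) ^ 3 ≤ (3 / 2 * (x ^ 2 + y ^ 2)) * (2 * (x ^ 2 + y ^ 2)) := by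
    have : x * (x + y) ^ 3 = (x * (x + y)) * (x + y) ^ 2 := by ring
    rw [this]
    exact mul_le_mul h2 h1 (by positivity) (by positivity)
  calc (2 * y ^ 2 + x ^ 2) * (x * (x + y) ^ 3)
      ≤ (2 * (x ^ 2 + y ^ 2)) * ((3 / 2 * (x ^ 2 + y ^ 2)) * (2 * (x ^ 2 + y ^ 2))) :=
        mul_le_mul h3 h4 (by positivity) (by positivity)
    _ = 6 * (x ^ 2 + y ^ 2) ^ 3 := by ring

theorem exp_neg3 : Real.exp (-3) ≤ 1 / 12 := by
  have h1 : Real.exp 3 = Real.exp 1 ^ 3 := by rw [← Real.exp_nat_mul]; norm_num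
  have h2 : (2.7 : ℝ) ≤ Real.exp 1 := by linarith [Real.exp_one_gt_d9]
  have h3 : (12 : ℝ) ≤ Real.exp 3 := by
    rw [h1]
    calc (12 : ℝ) ≤ 2.7 ^ 3 := by norm_num
      _ ≤ Real.exp 1 ^ 3 := pow_le_pow_left₀ (by norm_num) h2 3
  rw [Real.exp_neg, inv_eq_one_div]
  exact one_div_le_one_div_of_le (by norm_num) h3

theorem U_psd_det (i : Idx) (z : Cn 2) (hz : z 0 ≠ 0) :
    (complexHessian (UU i) z).PosSemidef ∧
      Real.exp (-3) * (complexHessian (fun z => potT i z + potE i z) z).det.re ≤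
        (complexHessian (UU i) z).det.re := by
  obtain ⟨a', b'⟩ := i
  obtain ⟨a, ha⟩ : ∃ a : ℝ, a = ‖z 0‖ ^ 2 := ⟨_, rfl⟩
  obtain ⟨b, hb⟩ : ∃ b : ℝ, b = ‖z 1‖ ^ 2 := ⟨_, rfl⟩
  have ha0 : 0 < a := by rw [ha]; positivity
  have hb0 : 0 ≤ b := by rw [hb]; positivity
  have hexp := exp_neg3
  have hk := kappa_det_pos (a', b') z
  have hred : ∀ k d : ℝ, 0 < k → k ≤ 12 * d → Real.exp (-3) * k ≤ d := by
    intro k d hk0 hkd
    have := mul_le_mul_of_nonneg_right hexp hk0.le
    linarith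
  cases a'
  · obtain ⟨w, hw⟩ : ∃ w : ℝ, w = 1 + b := ⟨_, rfl⟩
    obtain ⟨y, hy⟩ : ∃ y : ℝ, y = Real.sqrt (a * w) := ⟨_, rfl⟩
    have hw0 : 0 < w := by rw [hw]; positivity
    have hy0 : 0 < y := by rw [hy]; exact Real.sqrt_pos.2 (mul_pos ha0 hw0)
    have hy2 : y ^ 2 = a * w := by rw [hy]; exact Real.sq_sqrt (mul_pos ha0 hw0).le
    have hU : complexHessian (UU (false, b')) z =
        frm (w / (2 * y * (1 + y) ^ 2)) (1 / (2 * y * (1 + y) ^ 2))
          (a * (w + 1 + 2 * y) / (2 * w * y * (1 + y) ^ 2)) z := by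
      have : UU (false, b') = fun z : Cn 2 =>
          2 * Real.log (1 + Real.sqrt (‖z 0‖ ^ 2 * (1 + ‖z 1‖ ^ 2))) := by
        funext z; simp [UU]
      rw [this, hessian_U0 z hz ha hb hw hy]; rfl
    have hdet : w / (2 * y * (1 + y) ^ 2) * (a * (w + 1 + 2 * y) / (2 * w * y * (1 + y) ^ 2)) -
        (1 / (2 * y * (1 + y) ^ 2)) ^ 2 * (a * b) = 1 / (2 * w * (1 + y) ^ 3) := by
      have e : a = y ^ 2 / w := by rw [hy2]; field_simp
      have e' : b = w - 1 := by rw [hw]; ring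
      rw [e, e']; field_simp; ring
    have hD : 1 + y ^ 2 = 1 + a * (1 + b) := by rw [hy2, hw]
    refine ⟨?_, ?_⟩
    · rw [hU]
      apply frm_psd
      · positivity
      · positivity
      · rw [← ha, ← hb, hdet]; positivity
    · apply hred _ _ hk
      rw [kappa0_det b' z ha hb hD, hU, frm_det, ← ha, ← hb, hdet, Complex.ofReal_re,
        Complex.ofReal_re, ← hw]
      have e : a = y ^ 2 / w := by rw [hy2]; field_simp
      have h1 : a / (1 + y ^ 2) ^ 3 + 1 / (w * (1 + y ^ 2) ^ 2) =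
          (2 * y ^ 2 + 1 ^ 2) / (w * (1 + y ^ 2) ^ 3) := by
        rw [e]; field_simp; ring
      rw [h1, ← mul_div_assoc, div_le_div_iff₀ (by positivity) (by positivity)]
      have h2 := poly_ineq 1 y zero_le_one hy0.le
      have h3 : (2 * y ^ 2 + 1 ^ 2) * (2 * w * (1 + y) ^ 3) =
          2 * w * ((2 * y ^ 2 + 1 ^ 2) * (1 * (1 + y) ^ 3)) := by ring
      have h4 : 12 * 1 * (w * (1 + y ^ 2) ^ 3) = 2 * w * (6 * (1 ^ 2 + y ^ 2) ^ 3) := by ring
      rw [h3, h4]
      exact mul_le_mul_of_nonneg_left h2 (by positivity)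
  · obtain ⟨x, hx⟩ : ∃ x : ℝ, x = Real.sqrt a := ⟨_, rfl⟩
    obtain ⟨y, hy⟩ : ∃ y : ℝ, y = Real.sqrt (1 + b) := ⟨_, rfl⟩
    have hw0 : 0 < 1 + b := by positivity
    have hx0 : 0 < x := by rw [hx]; exact Real.sqrt_pos.2 ha0
    have hy0 : 0 < y := by rw [hy]; exact Real.sqrt_pos.2 hw0
    have hx2 : x ^ 2 = a := by rw [hx]; exact Real.sq_sqrt ha0.le
    have hy2 : y ^ 2 = 1 + b := by rw [hy]; exact Real.sq_sqrt hw0.le
    have hU : complexHessian (UU (true, b')) z =
        frm (y / (2 * x * (x + y) ^ 2)) (-1 / (2 * x * y * (x + y) ^ 2))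
          ((x * (y ^ 2 + 1) + 2 * y) / (2 * y ^ 3 * (x + y) ^ 2)) z := by
      have : UU (true, b') = fun z : Cn 2 =>
          2 * Real.log (Real.sqrt (‖z 0‖ ^ 2) + Real.sqrt (1 + ‖z 1‖ ^ 2)) := by
        funext z; simp [UU]
      rw [this, hessian_U1 z hz ha hb hx hy]; rfl
    have hdet : y / (2 * x * (x + y) ^ 2) * ((x * (y ^ 2 + 1) + 2 * y) /
        (2 * y ^ 3 * (x + y) ^ 2)) - (-1 / (2 * x * y * (x + y) ^ 2)) ^ 2 * (a * b) =
        1 / (2 * x * y ^ 2 * (x + y) ^ 3) := by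
      have e' : b = y ^ 2 - 1 := by rw [hy2]; ring
      rw [← hx2, e']; field_simp; ring
    have hD : x ^ 2 + y ^ 2 = a + (1 + b) := by rw [hx2, hy2]
    refine ⟨?_, ?_⟩
    · rw [hU]
      apply frm_psd
      · positivity
      · positivity
      · rw [← ha, ← hb, hdet]; positivity
    · apply hred _ _ hk
      rw [kappa1_det b' z ha hb hD, hU, frm_det, ← ha, ← hb, hdet, Complex.ofReal_re,
        Complex.ofReal_re, ← hy2]
      have h1 : 1 / (x ^ 2 + y ^ 2) ^ 3 + 1 / (y ^ 2 * (x ^ 2 + y ^ 2) ^ 2) =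
          (2 * y ^ 2 + x ^ 2) / (y ^ 2 * (x ^ 2 + y ^ 2) ^ 3) := by
        field_simp; ring
      rw [h1, ← mul_div_assoc, div_le_div_iff₀ (by positivity) (by positivity)]
      have h2 := poly_ineq x y hx0.le hy0.le
      have h3 : (2 * y ^ 2 + x ^ 2) * (2 * x * y ^ 2 * (x + y) ^ 3) =
          2 * y ^ 2 * ((2 * y ^ 2 + x ^ 2) * (x * (x + y) ^ 3)) := by ring
      have h4 : 12 * 1 * (y ^ 2 * (x ^ 2 + y ^ 2) ^ 3) = 2 * y ^ 2 * (6 * (x ^ 2 + y ^ 2) ^ 3) := by
        ring
      rw [h3, h4]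
      exact mul_le_mul_of_nonneg_left h2 (by positivity)

/-- the function g on the surface: log((|z_0| + |(z_1,z_2)|)^2 / |(z_0,z_1,z_2)|^2) -/
noncomputable def gS (x : S) : ℝ :=
  Real.log (1 + 2 * Real.sqrt ((x.1.1 0 0).re * (1 - (x.1.1 0 0).re)))

theorem gS_continuous : Continuous gS := by
  unfold gS
  apply Continuous.log
  · have h : Continuous (fun x : S => (x.1.1 0 0).re) := by fun_prop
    fun_prop
  · intro x; positivity

theorem P00_mem (x : S) : 0 ≤ (x.1.1 0 0).re ∧ (x.1.1 0 0).re ≤ 1 :=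
  ⟨x.2.1.diag_nonneg 0, x.2.1.diag_le 0⟩

theorem gS_nonneg (x : S) : 0 ≤ gS x := by
  unfold gS
  apply Real.log_nonneg
  have := Real.sqrt_nonneg ((x.1.1 0 0).re * (1 - (x.1.1 0 0).re))
  linarith

theorem gS_le (x : S) : gS x ≤ 1 := by
  unfold gS
  have h1 : Real.sqrt ((x.1.1 0 0).re * (1 - (x.1.1 0 0).re)) ≤ 1 / 2 := by
    rw [show (1 / 2 : ℝ) = Real.sqrt ((1 / 2) ^ 2) from (Real.sqrt_sq (by norm_num)).symm]
    apply Real.sqrt_le_sqrt
    nlinarith [sq_nonneg ((x.1.1 0 0).re - 1 / 2)]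
  have h2 : Real.log (1 + 2 * Real.sqrt ((x.1.1 0 0).re * (1 - (x.1.1 0 0).re))) ≤
      (1 + 2 * Real.sqrt ((x.1.1 0 0).re * (1 - (x.1.1 0 0).re))) - 1 :=
    Real.log_le_sub_one_of_pos (by positivity)
  linarith

/-- the two positive quantities |z_0|, |(z_1, z_2)| in a chart -/
noncomputable def al (i : Idx) (z : Cn 2) : ℝ := if i.1 then Real.sqrt (‖z 0‖ ^ 2) else 1

noncomputable def be (i : Idx) (z : Cn 2) : ℝ :=
  if i.1 then Real.sqrt (1 + ‖z 1‖ ^ 2) else Real.sqrt (‖z 0‖ ^ 2 * (1 + ‖z 1‖ ^ 2))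

theorem al_nonneg (i : Idx) (z : Cn 2) : 0 ≤ al i z := by
  unfold al; split_ifs <;> positivity

theorem be_nonneg (i : Idx) (z : Cn 2) : 0 ≤ be i z := by
  unfold be; split_ifs <;> positivity

theorem al_be (i : Idx) (z : Cn 2) : ‖Z i z 0‖ ^ 2 = al i z ^ 2 ∧
    ∑ l, ‖Z i z l‖ ^ 2 = al i z ^ 2 + be i z ^ 2 := by
  have hs := sum_Z i z
  unfold al be
  rw [hs, Z_zero]
  obtain ⟨a, b⟩ := i
  cases a
  · simp only [Bool.false_eq_true, if_false]
    rw [Real.sq_sqrt (by positivity)]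
    simp
  · simp only [if_true]
    rw [Real.sq_sqrt (by positivity), Real.sq_sqrt (by positivity)]
    exact ⟨rfl, rfl⟩

theorem albe_pos (i : Idx) (z : Cn 2) : 0 < al i z ^ 2 + be i z ^ 2 := by
  rw [← (al_be i z).2]
  exact sum_pos (k := kk i) (by rw [Z_kk]; exact one_ne_zero)

theorem P00_param (i : Idx) (z : Cn 2) :
    ((param i z).1.1 0 0).re = al i z ^ 2 / (al i z ^ 2 + be i z ^ 2) := by
  have h1 : ((param i z).1.1 0 0).re = ‖Z i z 0‖ ^ 2 / ∑ l, ‖Z i z l‖ ^ 2 := proj_diag_re _ _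
  rw [h1, (al_be i z).1, (al_be i z).2]

theorem gS_param' (i : Idx) (z : Cn 2) : gS (param i z) =
    Real.log (1 + 2 * (al i z * be i z / (al i z ^ 2 + be i z ^ 2))) := by
  have hpos := albe_pos i z
  have ha := al_nonneg i z
  have hb := be_nonneg i z
  unfold gS
  rw [P00_param]
  set α := al i z
  set β := be i z
  have h1 : α ^ 2 / (α ^ 2 + β ^ 2) * (1 - α ^ 2 / (α ^ 2 + β ^ 2)) =
      (α * β / (α ^ 2 + β ^ 2)) ^ 2 := by
    field_simp; ring
  rw [h1, Real.sqrt_sq (by positivity)]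

theorem gS_param (i : Idx) (z : Cn 2) : gS (param i z) = UU i z - potT i z := by
  have hpos := albe_pos i z
  have ha := al_nonneg i z
  have hb := be_nonneg i z
  have hU : UU i z = 2 * Real.log (al i z + be i z) := by
    unfold UU al be
    obtain ⟨a, b⟩ := i
    cases a <;> simp
  have hT : potT i z = Real.log (al i z ^ 2 + be i z ^ 2) := by
    unfold potT; rw [(al_be i z).2]
  rw [gS_param', hU, hT]
  set α := al i z
  set β := be i z
  have hab : 0 < α + β := by
    rcases ha.lt_or_eq with h | h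
    · linarith
    · rcases hb.lt_or_eq with h' | h'
      · linarith
      · rw [← h, ← h'] at hpos; norm_num at hpos
  have h1 : 1 + 2 * (α * β / (α ^ 2 + β ^ 2)) = (α + β) ^ 2 / (α ^ 2 + β ^ 2) := by
    field_simp; ring
  rw [h1, Real.log_div (by positivity) hpos.ne', Real.log_pow]
  push_cast
  ring

theorem UU_contDiffAt (i : Idx) (z : Cn 2) (hz : z 0 ≠ 0) : ContDiffAt ℝ 2 (UU i) z := by
  have n0 : ContDiffAt ℝ 2 (fun z : Cn 2 => ‖z 0‖ ^ 2) z := (nsq_contDiff 0).contDiffAt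
  have n1 : ContDiffAt ℝ 2 (fun z : Cn 2 => ‖z 1‖ ^ 2) z := (nsq_contDiff 1).contDiffAt
  have hz0 : 0 < ‖z 0‖ ^ 2 := by positivity
  obtain ⟨a, b⟩ := i
  cases a
  · have : UU (false, b) = fun z : Cn 2 =>
        2 * Real.log (1 + Real.sqrt (‖z 0‖ ^ 2 * (1 + ‖z 1‖ ^ 2))) := by
      funext z; simp [UU]
    rw [this]
    apply contDiffAt_const.mul
    apply ContDiffAt.log
    · apply contDiffAt_const.add
      apply ContDiffAt.sqrt
      · exact n0.mul (contDiffAt_const.add n1)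
      · positivity
    · positivity
  · have : UU (true, b) = fun z : Cn 2 =>
        2 * Real.log (Real.sqrt (‖z 0‖ ^ 2) + Real.sqrt (1 + ‖z 1‖ ^ 2)) := by
      funext z; simp [UU]
    rw [this]
    apply contDiffAt_const.mul
    apply ContDiffAt.log
    · exact (n0.sqrt hz0.ne').add ((contDiffAt_const.add n1).sqrt (by positivity))
    · positivity

/-! ### Second derivatives at local extrema -/

theorem hasDerivAt_line_of {n : ℕ} {f : Cn n → ℝ} {z v : Cn n} {f' : Cn n →L[ℝ] ℝ} {t : ℝ}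
    (hf : HasFDerivAt f f' (z + t • v)) : HasDerivAt (fun t : ℝ => f (z + t • v)) (f' v) t := by
  have h2 : HasDerivAt (fun t : ℝ => z + t • v) v t := by
    have := ((hasDerivAt_id t).smul_const v).const_add z
    simpa using this
  exact hf.comp_hasDerivAt t h2

theorem hess_nonpos_line {n : ℕ} (f : Cn n → ℝ) (z v : Cn n) (hf : ContDiffAt ℝ 2 f z)
    (hmax : IsLocalMax (fun t : ℝ => f (z + t • v)) 0) : hess f z v v ≤ 0 := by
  by_contra hcon
  push Not at hcon
  set g : ℝ → ℝ := fun t => f (z + t • v) with hg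
  have hline : Continuous (fun t : ℝ => z + t • v) := by fun_prop
  have hline0 : Tendsto (fun t : ℝ => z + t • v) (𝓝 0) (𝓝 z) := by
    simpa using hline.tendsto 0
  have hd1 : ∀ᶠ y in 𝓝 z, DifferentiableAt ℝ f y :=
    (hf.eventually (by simp)).mono fun y hy => hy.differentiableAt (by norm_num)
  have hgd : ∀ᶠ t in 𝓝 (0 : ℝ), deriv g t = fderiv ℝ f (z + t • v) v := by
    filter_upwards [hline0.eventually hd1] with t ht
    exact (hasDerivAt_line_of ht.hasFDerivAt).deriv
  have hd2 : HasFDerivAt (fderiv ℝ f) (fderiv ℝ (fderiv ℝ f) z) z := (fderiv_diff hf).hasFDerivAt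
  have hgd2 : HasDerivAt (fun t : ℝ => fderiv ℝ f (z + t • v) v) (hess f z v v) 0 := by
    have h1 : HasDerivAt (fun t : ℝ => z + t • v) v 0 := by
      have := ((hasDerivAt_id (0 : ℝ)).smul_const v).const_add z
      simpa using this
    have h2 : HasFDerivAt (fderiv ℝ f) (fderiv ℝ (fderiv ℝ f) z) (z + (0 : ℝ) • v) := by
      simpa using hd2
    have h3 := h2.comp_hasDerivAt (0 : ℝ) h1
    exact h3.clm_apply (hasDerivAt_const 0 v) |>.congr_deriv (by simp [hess])
  have hdd : deriv (deriv g) 0 = hess f z v v := by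
    have : deriv g =ᶠ[𝓝 0] fun t : ℝ => fderiv ℝ f (z + t • v) v := hgd
    rw [this.deriv_eq, hgd2.deriv]
  have hg0 : deriv g 0 = 0 := hmax.deriv_eq_zero
  have hgc : ContinuousAt g 0 := by
    have h1 : ContinuousAt f (z + (0 : ℝ) • v) := by simpa using hf.continuousAt
    exact ContinuousAt.comp (f := fun t : ℝ => z + t • v) h1 hline.continuousAt
  have hgmin : IsLocalMin g 0 := isLocalMin_of_deriv_deriv_pos (by rw [hdd]; exact hcon) hg0 hgc
  have hconst : g =ᶠ[𝓝 0] fun _ => g 0 := by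
    filter_upwards [hmax, hgmin] with t h1 h2
    exact le_antisymm h1 h2
  have hconst2 : deriv g =ᶠ[𝓝 0] fun _ => 0 := by
    have := hconst.deriv
    refine this.trans ?_
    simp
  rw [hconst2.deriv_eq] at hdd
  simp at hdd
  linarith

theorem hess_nonpos_of_localMax {n : ℕ} {f : Cn n → ℝ} {z : Cn n} (hf : ContDiffAt ℝ 2 f z)
    (hmax : IsLocalMax f z) (v : Cn n) : hess f z v v ≤ 0 := by
  apply hess_nonpos_line f z v hf
  have hline0 : Tendsto (fun t : ℝ => z + t • v) (𝓝 0) (𝓝 z) := by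
    have hline : Continuous (fun t : ℝ => z + t • v) := by fun_prop
    simpa using hline.tendsto 0
  filter_upwards [hline0.eventually hmax] with t ht
  simpa using ht

/-- If f - h has a local minimum, its complex Hessian is positive semidefinite. -/
theorem psd_of_localMin {f h : Cn 2 → ℝ} {z : Cn 2} (hf : ContDiffAt ℝ 2 f z)
    (hh : ContDiffAt ℝ 2 h z) (hmax : IsLocalMax (fun y => h y - f y) z) :
    (complexHessian f z - complexHessian h z).PosSemidef := by
  rw [← complexHessian_sub hf hh]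
  apply psd_of_hess (hf.sub hh)
  intro v
  have h1 := hess_nonpos_of_localMax (hh.sub hf) hmax v
  rw [hess_sub hh hf] at h1
  rw [hess_sub hf hh]
  linarith

/-! ### The subsolution has no test function from above at z_0 = 0 -/

theorem al_line (i : Idx) (z : Cn 2) (hz : z 0 = 0) (s : ℝ) (hs : |s| ≤ 1) :
    |s| * (Real.sqrt (1 + ‖z 1‖ ^ 2) / (1 + (1 + ‖z 1‖ ^ 2))) ≤
      gS (param i (z + s • eR 0)) := by
  have hw0 : 0 < 1 + ‖z 1‖ ^ 2 := by positivity
  obtain ⟨w, hw⟩ : ∃ w : ℝ, w = 1 + ‖z 1‖ ^ 2 := ⟨_, rfl⟩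
  rw [← hw]
  rw [← hw] at hw0
  have h1w : 1 ≤ w := by rw [hw]; nlinarith [sq_nonneg ‖z 1‖]
  have e0 : (z + s • (eR 0 : Cn 2)) 0 = (s : ℂ) := by
    simp [eR, hz]
  have e1 : (z + s • (eR 0 : Cn 2)) 1 = z 1 := by simp [eR]
  have n0 : ‖(z + s • (eR 0 : Cn 2)) 0‖ ^ 2 = s ^ 2 := by
    rw [e0, Complex.norm_real, Real.norm_eq_abs, sq_abs]
  have hs2 : s ^ 2 ≤ 1 := by
    rw [← sq_abs]; exact pow_le_one₀ (abs_nonneg s) hs
  have hsqw : Real.sqrt w ^ 2 = w := Real.sq_sqrt hw0.le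
  have hsq0 : 0 < Real.sqrt w := Real.sqrt_pos.2 hw0
  -- the product and the sum of squares
  have hprod : al i (z + s • eR 0) * be i (z + s • eR 0) = |s| * Real.sqrt w := by
    unfold al be
    rw [n0, e1, ← hw]
    obtain ⟨a, b⟩ := i
    cases a
    · simp only [Bool.false_eq_true, if_false]
      rw [one_mul, Real.sqrt_mul (sq_nonneg s), Real.sqrt_sq_eq_abs]
    · simp only [if_true]
      rw [Real.sqrt_sq_eq_abs]
  have hsum : al i (z + s • eR 0) ^ 2 + be i (z + s • eR 0) ^ 2 ≤ 1 + w := by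
    unfold al be
    rw [n0, e1, ← hw]
    obtain ⟨a, b⟩ := i
    cases a
    · simp only [Bool.false_eq_true, if_false]
      rw [Real.sq_sqrt (by positivity)]
      nlinarith
    · simp only [if_true]
      rw [Real.sq_sqrt (by positivity), Real.sq_sqrt hw0.le]
      linarith
  have hpos := albe_pos i (z + s • eR 0)
  rw [gS_param', hprod]
  set N := al i (z + s • eR 0) ^ 2 + be i (z + s • eR 0) ^ 2
  obtain ⟨X, hX⟩ : ∃ X : ℝ, X = 2 * (|s| * Real.sqrt w / (1 + w)) := ⟨_, rfl⟩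
  have hX0 : 0 ≤ X := by rw [hX]; positivity
  have hX1 : X ≤ 1 := by
    have h2 : 2 * Real.sqrt w ≤ 1 + w := by nlinarith [sq_nonneg (Real.sqrt w - 1)]
    have h3 : X = |s| * (2 * Real.sqrt w / (1 + w)) := by rw [hX]; ring
    rw [h3]
    have h4 : 2 * Real.sqrt w / (1 + w) ≤ 1 := by
      rw [div_le_one (by positivity)]; exact h2
    have h5 : 0 ≤ 2 * Real.sqrt w / (1 + w) := by positivity
    calc |s| * (2 * Real.sqrt w / (1 + w)) ≤ 1 * 1 := mul_le_mul hs h4 h5 zero_le_one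
      _ = 1 := one_mul 1
  have hmono : Real.log (1 + X) ≤ Real.log (1 + 2 * (|s| * Real.sqrt w / N)) := by
    apply Real.log_le_log (by positivity)
    rw [hX]
    have : |s| * Real.sqrt w / (1 + w) ≤ |s| * Real.sqrt w / N :=
      div_le_div_of_nonneg_left (by positivity) hpos hsum
    linarith
  refine le_trans ?_ hmono
  have h6 := Real.le_log_one_add_of_nonneg hX0
  have h7 : X / 2 ≤ 2 * X / (X + 2) := by
    rw [div_le_div_iff₀ (by norm_num) (by positivity)]
    nlinarith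
  have h8 : |s| * (Real.sqrt w / (1 + w)) = X / 2 := by rw [hX]; ring
  rw [h8]
  linarith

theorem gS_zero (i : Idx) (z : Cn 2) (hz : z 0 = 0) : gS (param i z) = 0 := by
  rw [gS_param']
  have : al i z * be i z = 0 := by
    unfold al be
    obtain ⟨a, b⟩ := i
    cases a <;> simp [hz]
  rw [this]; simp

theorem no_test (i : Idx) (z : Cn 2) (hz : z 0 = 0) (q : Cn 2 → ℝ) (hq : ContDiffAt ℝ 2 q z)
    (hmax : IsLocalMax (fun y => gS (param i y) - q y) z) : False := by
  set c : ℝ := Real.sqrt (1 + ‖z 1‖ ^ 2) / (1 + (1 + ‖z 1‖ ^ 2)) with hc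
  have hc0 : 0 < c := by rw [hc]; positivity
  have hline0 : Tendsto (fun t : ℝ => z + t • eR (0 : Fin 2)) (𝓝 0) (𝓝 z) := by
    have hline : Continuous (fun t : ℝ => z + t • eR (0 : Fin 2)) := by fun_prop
    simpa using hline.tendsto 0
  set φ : ℝ → ℝ := fun t => q (z + t • eR (0 : Fin 2)) with hφ
  have hφ0 : φ 0 = q z := by simp [hφ]
  have hd : ∃ a, HasDerivAt φ a 0 := by
    have h1 : DifferentiableAt ℝ q (z + (0 : ℝ) • eR (0 : Fin 2)) := by
      simpa using hq.differentiableAt (by norm_num)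
    exact ⟨_, hasDerivAt_line_of h1.hasFDerivAt⟩
  obtain ⟨a, hd⟩ := hd
  -- lower bound for φ
  have h1 : ∀ᶠ s : ℝ in 𝓝 0, c * |s| ≤ φ s - φ 0 := by
    have habs : ∀ᶠ s : ℝ in 𝓝 0, |s| ≤ 1 := by
      have : Tendsto (fun s : ℝ => |s|) (𝓝 0) (𝓝 |(0 : ℝ)|) := continuous_abs.tendsto 0
      rw [abs_zero] at this
      exact this.eventually_le_const (by norm_num)
    filter_upwards [hline0.eventually hmax, habs] with s h2 h3
    have h4 := al_line i z hz s h3
    rw [gS_zero i z hz] at h2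
    rw [← hc] at h4
    rw [hφ0]
    simp only [hφ]
    linarith
  have h2 : ∀ᶠ s : ℝ in 𝓝 0, c * |-s| ≤ φ (-s) - φ 0 := by
    have : Tendsto (fun s : ℝ => -s) (𝓝 0) (𝓝 0) := by
      have := (continuous_neg (G := ℝ)).tendsto 0
      simpa using this
    exact this.eventually h1
  have h3 := (hasDerivAt_iff_isLittleO.1 hd).def (show 0 < c / 2 by positivity)
  have h4 : ∀ᶠ s : ℝ in 𝓝 0, ‖φ (-s) - φ 0 - (-s - 0) • a‖ ≤ c / 2 * ‖-s - 0‖ := by
    have : Tendsto (fun s : ℝ => -s) (𝓝 0) (𝓝 0) := by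
      have := (continuous_neg (G := ℝ)).tendsto 0
      simpa using this
    exact this.eventually h3
  have h5 : ∀ᶠ s : ℝ in 𝓝[>] 0, s ∈ Ioi (0 : ℝ) := self_mem_nhdsWithin
  obtain ⟨s, ⟨⟨⟨g1, g2⟩, g3⟩, g4⟩, g5⟩ := ((((h1.and h2).and h3).and h4).filter_mono
    (nhdsWithin_le_nhds (s := Ioi 0)) |>.and h5).exists
  have hs : 0 < s := g5
  rw [sub_zero, Real.norm_eq_abs, Real.norm_eq_abs, smul_eq_mul] at g3
  rw [sub_zero, Real.norm_eq_abs, Real.norm_eq_abs, smul_eq_mul] at g4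
  rw [abs_neg] at g2 g4
  have g3' := (abs_le.1 g3).2
  have g4' := (abs_le.1 g4).2
  have : 0 < c * |s| := by positivity
  linarith

/-! ### The sub- and supersolution -/

/-- the data: θ_t = θ, F = 0, μ = κ² -/
noncomputable def dataS (T : ℝ) : FlowData atlasS where
  T := T
  kappa := kappaS
  theta := thetaS
  omega := fun _ => thetaS
  F := fun _ _ _ => 0
  m := fun _ _ => 1

theorem complexHessian_continuous {f : Cn 2 → ℝ} (hf : ContDiff ℝ 2 f) :
    Continuous (complexHessian f) := by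
  have h1 : ContDiff ℝ 1 (fderiv ℝ f) := hf.fderiv_right (by norm_num)
  have h2 : Continuous (fderiv ℝ (fderiv ℝ f)) := h1.continuous_fderiv (by norm_num)
  have h3 : ∀ v w : Cn 2, Continuous (fun z => hess f z v w) := by
    intro v w
    unfold hess
    exact (h2.clm_apply continuous_const).clm_apply continuous_const
  unfold complexHessian
  apply continuous_matrix
  intro j l
  simp only [Matrix.of_apply]
  apply continuous_const.mul
  apply Continuous.add
  · exact Complex.continuous_ofReal.comp ((h3 _ _).add (h3 _ _))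
  · exact continuous_const.mul (Complex.continuous_ofReal.comp ((h3 _ _).sub (h3 _ _)))

theorem theta_pd_pt : (complexHessian (potT (false, 0)) ![1, 0]).PosDef := by
  apply pd_of_det (theta_psd _ _)
  rw [theta0_eq 0 ![1, 0] rfl rfl rfl, frm_det]
  simp

theorem dataS_admissible {T : ℝ} (hT : 0 < T) : (dataS T).Admissible where
  time := hT
  kahler := fun i z _ => kappa_pd i z
  theta_semipos := fun i z _ => theta_psd i z
  theta_big := ⟨(false, 0), ![1, 0], mem_univ _, theta_pd_pt⟩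
  omega_semipos := fun _ _ i z _ => theta_psd i z
  omega_big := fun _ _ => ⟨(false, 0), ![1, 0], mem_univ _, theta_pd_pt⟩
  omega_ge := by
    intro t _ i z _
    show (complexHessian (potT i) z - complexHessian (potT i) z).PosSemidef
    rw [sub_self]
    exact Matrix.PosSemidef.zero
  omega_cont := by
    intro i
    have h1 : Continuous (complexHessian (potT i)) := complexHessian_continuous (potT_contDiff i)
    exact (h1.comp continuous_snd).continuousOn
  F_cont := continuousOn_const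
  F_mono := fun _ _ _ => monotone_const
  m_nonneg := fun _ _ _ => zero_le_one
  m_cont := continuousOn_const
  m_bdd := ⟨1, fun _ _ _ => le_refl _⟩

/-- the subsolution -/
noncomputable def uS (t : ℝ) (x : S) : ℝ := gS x - 3 * t

open Classical in
/-- the supersolution: 1 off the exceptional curve, -4t on it -/
noncomputable def vS (t : ℝ) (x : S) : ℝ := if x.1.1 0 0 = 1 then -4 * t else 1

theorem slice_space {α : ℝ → Cn 2 → ℝ} {t₀ : ℝ} {z₀ : Cn 2}
    (h : IsLocalMax (fun p : ℝ × Cn 2 => α p.1 p.2) (t₀, z₀)) :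
    IsLocalMax (fun z => α t₀ z) z₀ := by
  have hc : Tendsto (fun z : Cn 2 => (t₀, z)) (𝓝 z₀) (𝓝 (t₀, z₀)) :=
    (Continuous.prodMk continuous_const continuous_id).tendsto z₀
  exact hc.eventually h

theorem slice_time {α : ℝ → Cn 2 → ℝ} {t₀ : ℝ} {z₀ : Cn 2}
    (h : IsLocalMax (fun p : ℝ × Cn 2 => α p.1 p.2) (t₀, z₀)) :
    IsLocalMax (fun t => α t z₀) t₀ := by
  have hc : Tendsto (fun t : ℝ => (t, z₀)) (𝓝 t₀) (𝓝 (t₀, z₀)) :=
    (Continuous.prodMk continuous_id continuous_const).tendsto t₀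
  exact hc.eventually h

theorem uS_visc (i : Idx) (t₀ : ℝ) (z₀ : Cn 2) (q : ℝ → Cn 2 → ℝ) (hq : IsTest q t₀ z₀)
    (hmax : IsLocalMax (fun p : ℝ × Cn 2 => uS p.1 (param i p.2) - q p.1 p.2) (t₀, z₀)) :
    Real.exp (deriv (fun t => q t z₀) t₀ + 0) *
        (1 * (complexHessian (fun z => potT i z + potE i z) z₀).det.re) ≤
      posDet (complexHessian (potT i) z₀ + complexHessian (q t₀) z₀) := by
  have hspace := slice_space (α := fun t z => gS (param i z) - 3 * t - q t z) hmax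
  have htime := slice_time (α := fun t z => gS (param i z) - 3 * t - q t z) hmax
  -- the time derivative of the test function
  have hqt : deriv (fun t => q t z₀) t₀ = -3 := by
    have h1 : HasDerivAt (fun t => q t z₀) (deriv (fun t => q t z₀) t₀) t₀ :=
      (hq.1.differentiableAt (by norm_num)).hasDerivAt
    have h2 : HasDerivAt (fun t => gS (param i z₀) - 3 * t - q t z₀)
        (0 - 3 * 1 - deriv (fun t => q t z₀) t₀) t₀ :=
      ((hasDerivAt_const t₀ (gS (param i z₀))).sub ((hasDerivAt_id t₀).const_mul 3)).sub h1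
    have h3 := htime.hasDerivAt_eq_zero h2
    linarith
  have hmaxz : IsLocalMax (fun y => gS (param i y) - q t₀ y) z₀ := by
    filter_upwards [hspace] with y hy
    linarith
  by_cases hz : z₀ 0 = 0
  · exact (no_test i z₀ hz (q t₀) hq.2 hmaxz).elim
  · -- comparison of Hessians
    have hU := UU_contDiffAt i z₀ hz
    have hP : ContDiffAt ℝ 2 (potT i) z₀ := (potT_contDiff i).contDiffAt
    have hsum : ContDiffAt ℝ 2 (fun y => potT i y + q t₀ y) z₀ := hP.add hq.2
    have hmax2 : IsLocalMax (fun y => UU i y - (potT i y + q t₀ y)) z₀ := by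
      filter_upwards [hmaxz] with y hy
      rw [gS_param, gS_param] at hy
      linarith
    have hpsd := psd_of_localMin hsum hU hmax2
    rw [complexHessian_add hP hq.2] at hpsd
    obtain ⟨hUpsd, hUdet⟩ := U_psd_det i z₀ hz
    have hA : complexHessian (potT i) z₀ + complexHessian (q t₀) z₀ =
        complexHessian (UU i) z₀ + (complexHessian (potT i) z₀ + complexHessian (q t₀) z₀ -
          complexHessian (UU i) z₀) := by abel
    have hApsd : (complexHessian (potT i) z₀ + complexHessian (q t₀) z₀).PosSemidef := by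
      rw [hA]; exact hUpsd.add hpsd
    have hdet : (complexHessian (UU i) z₀).det.re ≤
        (complexHessian (potT i) z₀ + complexHessian (q t₀) z₀).det.re := by
      rw [hA]; exact det_mono hUpsd hpsd
    rw [hqt]
    unfold posDet
    rw [if_pos hApsd, add_zero, one_mul]
    exact hUdet.trans hdet

theorem uS_continuous : Continuous (fun p : ℝ × S => uS p.1 p.2) := by
  unfold uS
  exact (gS_continuous.comp continuous_snd).sub (continuous_const.mul continuous_fst)

theorem uS_sub {T : ℝ} (hT : 0 < T) : IsSubsolution (dataS T) uS where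
  bdd := by
    refine ⟨1 + 3 * T, fun t ht x => ?_⟩
    have h1 := gS_nonneg x
    have h2 := gS_le x
    have h3 : t < T := ht.2
    have h4 : 0 ≤ t := ht.1
    unfold uS
    rw [abs_le]
    constructor <;> linarith
  usc := uS_continuous.continuousOn.upperSemicontinuousOn
  visc := fun i t₀ _ z₀ _ q hq hmax => uS_visc i t₀ z₀ q hq hmax

theorem E_iff (i : Idx) (z : Cn 2) : (param i z).1.1 0 0 = 1 ↔ be i z = 0 := by
  have h1 : (((param i z).1.1 0 0).re : ℂ) = (param i z).1.1 0 0 := (param i z).2.1.diag_re 0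
  rw [← h1, P00_param]
  have hpos := albe_pos i z
  constructor
  · intro h
    have h2 : al i z ^ 2 / (al i z ^ 2 + be i z ^ 2) = 1 := by exact_mod_cast h
    rw [div_eq_one_iff_eq hpos.ne'] at h2
    have h3 : be i z ^ 2 = 0 := by linarith
    simpa using h3
  · intro h
    rw [h] at hpos ⊢
    have h2 : al i z ^ 2 ≠ 0 := by
      intro h3; rw [h3] at hpos; norm_num at hpos
    simp [h2]

theorem E_iff' (i : Idx) (z : Cn 2) : (param i z).1.1 0 0 = 1 ↔ i.1 = false ∧ z 0 = 0 := by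
  rw [E_iff]
  unfold be
  obtain ⟨a, b⟩ := i
  cases a
  · simp only [Bool.false_eq_true, if_false, true_and]
    rw [Real.sqrt_eq_zero (by positivity)]
    constructor
    · intro h
      rcases mul_eq_zero.1 h with h1 | h1
      · simpa using h1
      · exfalso
        have : 0 < 1 + ‖z 1‖ ^ 2 := by positivity
        linarith
    · intro h; simp [h]
  · simp only [if_true]
    constructor
    · intro h
      exfalso
      have : 0 < Real.sqrt (1 + ‖z 1‖ ^ 2) := by positivity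
      linarith
    · rintro ⟨h, -⟩
      simp at h

theorem E_closed : IsClosed {x : S | x.1.1 0 0 = 1} := isClosed_eq (by fun_prop) continuous_const

theorem vS_visc (i : Idx) (t₀ : ℝ) (z₀ : Cn 2) (q : ℝ → Cn 2 → ℝ) (hq : IsTest q t₀ z₀)
    (hmin : IsLocalMin (fun p : ℝ × Cn 2 => vS p.1 (param i p.2) - q p.1 p.2) (t₀, z₀)) :
    posDet (complexHessian (potT i) z₀ + complexHessian (q t₀) z₀) ≤
      Real.exp (deriv (fun t => q t z₀) t₀ + 0) *
        (1 * (complexHessian (fun z => potT i z + potE i z) z₀).det.re) := by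
  have hmax : IsLocalMax (fun p : ℝ × Cn 2 =>
      (fun t z => q t z - vS t (param i z)) p.1 p.2) (t₀, z₀) := by
    filter_upwards [hmin] with p hp
    linarith
  have hκ : 0 < (complexHessian (fun z => potT i z + potE i z) z₀).det.re := kappa_det_pos i z₀
  by_cases hE : (param i z₀).1.1 0 0 = 1
  · -- on the exceptional curve
    obtain ⟨hi, hz⟩ := (E_iff' i z₀).1 hE
    have hspace := slice_space (α := fun t z => q t z - vS t (param i z)) hmax
    -- the test function has a local maximum along the curve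
    have hline : ∀ v : Cn 2, v 0 = 0 → hess (q t₀) z₀ v v ≤ 0 := by
      intro v hv
      apply hess_nonpos_line (q t₀) z₀ v hq.2
      have hc : Tendsto (fun t : ℝ => z₀ + t • v) (𝓝 0) (𝓝 z₀) := by
        have hline : Continuous (fun t : ℝ => z₀ + t • v) := by fun_prop
        simpa using hline.tendsto 0
      filter_upwards [hc.eventually hspace] with t ht
      have h1 : (param i (z₀ + t • v)).1.1 0 0 = 1 := by
        rw [E_iff']
        exact ⟨hi, by simp [hz, hv]⟩
      unfold vS at ht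
      rw [if_pos h1, if_pos hE] at ht
      simp only [zero_smul, add_zero]
      linarith
    have h11 : ((complexHessian (q t₀) z₀) 1 1).re ≤ 0 := by
      have h1 := hline (eR 1) (by simp [eR])
      have h2 := hline (eI 1) (by simp [eI])
      unfold complexHessian
      simp only [Matrix.of_apply]
      simp
      linarith
    have hθ11 : ((complexHessian (potT i) z₀) 1 1).re = 0 := by
      obtain ⟨a, b⟩ := i
      simp only at hi
      subst hi
      rw [theta0_eq b z₀ rfl rfl rfl]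
      simp [frm, hz]
    have hpos : posDet (complexHessian (potT i) z₀ + complexHessian (q t₀) z₀) ≤ 0 := by
      unfold posDet
      split_ifs with hA
      · obtain ⟨a0, a1, adet, -⟩ := psd_entries hA
        have h3 : ((complexHessian (potT i) z₀ + complexHessian (q t₀) z₀) 1 1).re ≤ 0 := by
          rw [Matrix.add_apply, Complex.add_re, hθ11, zero_add]; exact h11
        have h4 : ((complexHessian (potT i) z₀ + complexHessian (q t₀) z₀) 1 1).re = 0 :=
          le_antisymm h3 a1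
        rw [adet, h4, mul_zero, zero_sub, neg_nonpos]
        exact Complex.normSq_nonneg _
      · exact le_refl _
    refine le_trans hpos ?_
    positivity
  · -- off the exceptional curve
    have hev : ∀ᶠ p : ℝ × Cn 2 in 𝓝 (t₀, z₀), (param i p.2).1.1 0 0 ≠ 1 := by
      have h1 : ∀ᶠ x' : S in 𝓝 (param i z₀), x'.1.1 0 0 ≠ 1 := E_closed.isOpen_compl.mem_nhds hE
      have h2 : Tendsto (fun p : ℝ × Cn 2 => param i p.2) (𝓝 (t₀, z₀)) (𝓝 (param i z₀)) :=
        ((param_continuous i).comp continuous_snd).tendsto (t₀, z₀)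
      exact h2.eventually h1
    have hqmax : IsLocalMax (fun p : ℝ × Cn 2 => q p.1 p.2) (t₀, z₀) := by
      filter_upwards [hmax, hev] with p h1 h2
      unfold vS at h1
      rw [if_neg h2, if_neg hE] at h1
      linarith
    have hspace := slice_space (α := q) hqmax
    have htime := slice_time (α := q) hqmax
    have hqt : deriv (fun t => q t z₀) t₀ = 0 := htime.deriv_eq_zero
    have hpsd : (complexHessian (fun _ : Cn 2 => (0 : ℝ)) z₀ -
        complexHessian (q t₀) z₀).PosSemidef := by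
      apply psd_of_localMin contDiffAt_const hq.2
      simpa using hspace
    rw [hessian_const, zero_sub] at hpsd
    have hle : posDet (complexHessian (potT i) z₀ + complexHessian (q t₀) z₀) ≤
        (complexHessian (potT i) z₀).det.re := by
      unfold posDet
      split_ifs with hA
      · have h1 := det_mono hA hpsd
        have h2 : complexHessian (potT i) z₀ + complexHessian (q t₀) z₀ +
            -complexHessian (q t₀) z₀ = complexHessian (potT i) z₀ := by abel
        rw [h2] at h1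
        exact h1
      · exact (psd_entries (theta_psd i z₀)).2.2.2
    rw [hqt, add_zero, Real.exp_zero, one_mul, one_mul]
    exact hle.trans (theta_det_le i z₀)

theorem vS_super {T : ℝ} (hT : 0 < T) : IsSupersolution (dataS T) vS where
  bdd := by
    refine ⟨1 + 4 * T, fun t ht x => ?_⟩
    have h3 : t < T := ht.2
    have h4 : 0 ≤ t := ht.1
    unfold vS
    rw [abs_le]
    split_ifs <;> constructor <;> linarith
  lsc := by
    intro p hp y hy
    obtain ⟨t, x⟩ := p
    replace hy : y < vS t x := hy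
    have ht : 0 ≤ t := hp.1.1
    by_cases hx : x.1.1 0 0 = 1
    · have h1 : y < -4 * t := by
        unfold vS at hy; rw [if_pos hx] at hy; exact hy
      have h2 : ∀ᶠ p' : ℝ × S in 𝓝 (t, x), y < -4 * p'.1 := by
        have hc : Tendsto (fun p' : ℝ × S => -4 * p'.1) (𝓝 (t, x)) (𝓝 (-4 * t)) :=
          (continuous_const.mul continuous_fst).tendsto (t, x)
        exact hc.eventually_const_lt h1
      filter_upwards [nhdsWithin_le_nhds h2, self_mem_nhdsWithin] with p' h3 h4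
      have h5 : 0 ≤ p'.1 := h4.1.1
      unfold vS
      split_ifs
      · exact h3
      · linarith
    · have h1 : y < 1 := by
        unfold vS at hy; rw [if_neg hx] at hy; exact hy
      have h2 : ∀ᶠ p' : ℝ × S in 𝓝 (t, x), p'.2.1.1 0 0 ≠ 1 := by
        have h3 : ∀ᶠ x' : S in 𝓝 x, x'.1.1 0 0 ≠ 1 := E_closed.isOpen_compl.mem_nhds hx
        have hc : Tendsto (fun p' : ℝ × S => p'.2) (𝓝 (t, x)) (𝓝 x) :=
          continuous_snd.tendsto (t, x)
        exact hc.eventually h3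
      filter_upwards [nhdsWithin_le_nhds h2] with p' h3
      unfold vS
      rw [if_neg h3]; exact h1
  visc := fun i t₀ _ z₀ _ q hq hmin => vS_visc i t₀ z₀ q hq hmin

theorem u_le_v_zero (x : S) : uS 0 x ≤ vS 0 x := by
  unfold uS vS
  split_ifs with h
  · have : gS x = 0 := by
      unfold gS; rw [h]; simp
    rw [this]; simp
  · have := gS_le x
    linarith

/-- The comparison principle fails: for every finite T > 0 there are a compact connected Kähler
surface, a closed semipositive big form θ = ω_t independent of time, a volume form μ > 0 (the square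
of a Kähler form), F = 0, and a bounded viscosity subsolution u and a bounded viscosity supersolution
v with u ≤ v at time 0 and u > v somewhere at every time t in ]0,T[. -/
theorem main (T : ℝ) (hT : 0 < T) :
    ∃ (X : Type) (_ : TopologicalSpace X) (_ : CompactSpace X) (_ : T2Space X)
      (_ : ConnectedSpace X) (A : HolAtlas X 2) (D : FlowData A) (u v : ℝ → X → ℝ),
      D.T = T ∧ D.Admissible ∧ (∀ t, D.omega t = D.theta) ∧ (∀ t x r, D.F t x r = 0) ∧
      (∀ t x, D.m t x = 1) ∧ IsSubsolution D u ∧ IsSupersolution D v ∧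
      ContinuousOn (fun p : ℝ × X => u p.1 p.2) (Ico 0 T ×ˢ univ) ∧
      (∀ x, u 0 x ≤ v 0 x) ∧ ∀ t ∈ Ioo 0 T, ∃ x, v t x < u t x := by
  refine ⟨S, inferInstance, inferInstance, inferInstance, inferInstance, atlasS, dataS T, uS, vS,
    rfl, dataS_admissible hT, fun _ => rfl, fun _ _ _ => rfl, fun _ _ => rfl, uS_sub hT,
    vS_super hT, uS_continuous.continuousOn, u_le_v_zero, ?_⟩
  intro t ht
  refine ⟨param (false, 0) ![0, 0], ?_⟩
  have hE : (param (false, 0) ![0, 0]).1.1 0 0 = 1 := by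
    rw [E_iff']; simp
  unfold uS vS
  rw [if_pos hE, gS_zero (false, 0) ![0, 0] (by simp)]
  linarith [ht.1]

end Pool.Agent.H314.Flow
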