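import Mathlib

set_option autoImplicit false

open Set Filter Topology Metric
open scoped ContDiff ComplexOrder

namespace Pool.Agent.H314.Flow

/-- complex n-space -/
abbrev Cn (n : ℕ) : Type := Fin n → ℂ

/-- the coordinate vectors e_j and i e_j -/
noncomputable def eR {n : ℕ} (j : Fin n) : Cn n := Pi.single j (1 : ℂ)

noncomputable def eI {n : ℕ} (j : Fin n) : Cn n := Pi.single j Complex.I

/-- second derivative D^2 f (z)(v,w) -/
noncomputable def hess {n : ℕ} (f : Cn n → ℝ) (z v w : Cn n) : ℝ :=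
  fderiv ℝ (fderiv ℝ f) z v w

/-- The complex Hessian, with entries ∂²f/∂z_j∂\bar z_l. -/
noncomputable def complexHessian {n : ℕ} (f : Cn n → ℝ) (z : Cn n) : Matrix (Fin n) (Fin n) ℂ :=
  Matrix.of fun j l => (1 / 4 : ℂ) *
    (((hess f z (eR j) (eR l) + hess f z (eI j) (eI l) : ℝ) : ℂ) +
      Complex.I * ((hess f z (eR j) (eI l) - hess f z (eI j) (eR l) : ℝ) : ℂ))

/-! ### General definitions -/

/-- A holomorphic atlas of dimension n on a topological space: charts onto open subsets of C^n,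
covering the space, with holomorphic changes of coordinates. -/
structure HolAtlas (X : Type) [TopologicalSpace X] (n : ℕ) where
  ι : Type
  chart : ι → OpenPartialHomeomorph X (Cn n)
  cover : ∀ x, ∃ i, x ∈ (chart i).source
  holo : ∀ i j, DifferentiableOn ℂ (fun z => chart j ((chart i).symm z))
    {z | z ∈ (chart i).target ∧ (chart i).symm z ∈ (chart j).source}

/-- A smooth closed real (1,1)-form, given by potentials in the charts: in the chart i it is
dd^c (pot i), and the potentials of two charts differ by a pluriharmonic function on the overlap,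
so that the expressions in the charts are those of one form. -/
structure ClosedForm {X : Type} [TopologicalSpace X] {n : ℕ} (A : HolAtlas X n) where
  pot : A.ι → Cn n → ℝ
  smooth : ∀ i, ContDiffOn ℝ ∞ (pot i) (A.chart i).target
  compat : ∀ i j, ∀ z ∈ (A.chart i).target, (A.chart i).symm z ∈ (A.chart j).source →
    complexHessian (fun y => pot i y - pot j (A.chart j ((A.chart i).symm y))) z = 0

/-- The matrix of coefficients of a form in the chart i at the point z. -/
noncomputable def ClosedForm.mat {X : Type} [TopologicalSpace X] {n : ℕ} {A : HolAtlas X n}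
    (α : ClosedForm A) (i : A.ι) (z : Cn n) : Matrix (Fin n) (Fin n) ℂ :=
  complexHessian (α.pot i) z

open Classical in
/-- The determinant of the matrix of α_+, where α_+ = α if α ≥ 0 and α_+ = 0 otherwise. -/
noncomputable def posDet {n : ℕ} (M : Matrix (Fin n) (Fin n) ℂ) : ℝ :=
  if M.PosSemidef then M.det.re else 0

/-- Data of the flow on [0,T[ × X: a Kähler form kappa, a form theta, a family of forms omega_t,
the function F, and the volume form μ(t,x) = m(t,x) kappa^n. -/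
structure FlowData {X : Type} [TopologicalSpace X] {n : ℕ} (A : HolAtlas X n) where
  T : ℝ
  kappa : ClosedForm A
  theta : ClosedForm A
  omega : ℝ → ClosedForm A
  F : ℝ → X → ℝ → ℝ
  m : ℝ → X → ℝ

/-- The standing assumptions on the data. A semipositive form is big, i.e. its top power has
positive integral, when it is positive definite at some point. -/
structure FlowData.Admissible {X : Type} [TopologicalSpace X] {n : ℕ} {A : HolAtlas X n}
    (D : FlowData A) : Prop where
  time : 0 < D.T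
  kahler : ∀ i, ∀ z ∈ (A.chart i).target, (D.kappa.mat i z).PosDef
  theta_semipos : ∀ i, ∀ z ∈ (A.chart i).target, (D.theta.mat i z).PosSemidef
  theta_big : ∃ i, ∃ z ∈ (A.chart i).target, (D.theta.mat i z).PosDef
  omega_semipos : ∀ t ∈ Ico 0 D.T, ∀ i, ∀ z ∈ (A.chart i).target, ((D.omega t).mat i z).PosSemidef
  omega_big : ∀ t ∈ Ico 0 D.T, ∃ i, ∃ z ∈ (A.chart i).target, ((D.omega t).mat i z).PosDef
  omega_ge : ∀ t ∈ Ico 0 D.T, ∀ i, ∀ z ∈ (A.chart i).target,
    ((D.omega t).mat i z - D.theta.mat i z).PosSemidef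
  omega_cont : ∀ i, ContinuousOn (fun p : ℝ × Cn n => (D.omega p.1).mat i p.2)
    (Ico 0 D.T ×ˢ (A.chart i).target)
  F_cont : ContinuousOn (fun p : ℝ × X × ℝ => D.F p.1 p.2.1 p.2.2) (Ico 0 D.T ×ˢ univ)
  F_mono : ∀ t ∈ Ico 0 D.T, ∀ x, Monotone (D.F t x)
  m_nonneg : ∀ t ∈ Ico 0 D.T, ∀ x, 0 ≤ D.m t x
  m_cont : ContinuousOn (fun p : ℝ × X => D.m p.1 p.2) (Ico 0 D.T ×ˢ univ)
  m_bdd : ∃ C, ∀ t ∈ Ico 0 D.T, ∀ x, D.m t x ≤ C

/-- Test functions at (t₀, z₀) in a chart: C^1 in the time and C^2 in the space variable. -/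
def IsTest {n : ℕ} (q : ℝ → Cn n → ℝ) (t₀ : ℝ) (z₀ : Cn n) : Prop :=
  ContDiffAt ℝ 1 (fun t => q t z₀) t₀ ∧ ContDiffAt ℝ 2 (q t₀) z₀

/-- Bounded upper semicontinuous viscosity subsolutions of the flow. -/
structure IsSubsolution {X : Type} [TopologicalSpace X] {n : ℕ} {A : HolAtlas X n}
    (D : FlowData A) (u : ℝ → X → ℝ) : Prop where
  bdd : ∃ C, ∀ t ∈ Ico 0 D.T, ∀ x, |u t x| ≤ C
  usc : UpperSemicontinuousOn (fun p : ℝ × X => u p.1 p.2) (Ico 0 D.T ×ˢ univ)
  visc : ∀ i, ∀ t₀ ∈ Ioo 0 D.T, ∀ z₀ ∈ (A.chart i).target, ∀ q : ℝ → Cn n → ℝ, IsTest q t₀ z₀ →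
    IsLocalMax (fun p : ℝ × Cn n => u p.1 ((A.chart i).symm p.2) - q p.1 p.2) (t₀, z₀) →
    Real.exp (deriv (fun t => q t z₀) t₀ + D.F t₀ ((A.chart i).symm z₀) (q t₀ z₀)) *
        (D.m t₀ ((A.chart i).symm z₀) * (D.kappa.mat i z₀).det.re) ≤
      posDet ((D.omega t₀).mat i z₀ + complexHessian (q t₀) z₀)

/-- Bounded lower semicontinuous viscosity supersolutions of the flow. -/
structure IsSupersolution {X : Type} [TopologicalSpace X] {n : ℕ} {A : HolAtlas X n}
    (D : FlowData A) (v : ℝ → X → ℝ) : Prop where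
  bdd : ∃ C, ∀ t ∈ Ico 0 D.T, ∀ x, |v t x| ≤ C
  lsc : LowerSemicontinuousOn (fun p : ℝ × X => v p.1 p.2) (Ico 0 D.T ×ˢ univ)
  visc : ∀ i, ∀ t₀ ∈ Ioo 0 D.T, ∀ z₀ ∈ (A.chart i).target, ∀ q : ℝ → Cn n → ℝ, IsTest q t₀ z₀ →
    IsLocalMin (fun p : ℝ × Cn n => v p.1 ((A.chart i).symm p.2) - q p.1 p.2) (t₀, z₀) →
    posDet ((D.omega t₀).mat i z₀ + complexHessian (q t₀) z₀) ≤
      Real.exp (deriv (fun t => q t z₀) t₀ + D.F t₀ ((A.chart i).symm z₀) (q t₀ z₀)) *
        (D.m t₀ ((A.chart i).symm z₀) * (D.kappa.mat i z₀).det.re)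


end Pool.Agent.H314.Flow
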